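import Pool.Agent.EUL.Hom

set_option autoImplicit false

open Finset

namespace Pool.Agent.EUL

variable {M : Type*}

/-- projection to words of length `N` -/
noncomputable def Pr (N : ℕ) : Ch M →ₗ[ℤ] Ch M :=
  Finsupp.linearCombination ℤ (fun w => if w.length = N then Finsupp.single w 1 else 0)

@[simp] lemma Pr_single (N : ℕ) (w : List M) :
    Pr N (Finsupp.single w 1) = if w.length = N then Finsupp.single w 1 else 0 := by
  simp [Pr]

lemma Pr_cn (N : ℕ) (x : M) (u : Ch M) : Pr (N + 1) (cn x u) = cn x (Pr N u) := by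
  have := ext_words (f := (Pr (N + 1)).comp (cn x)) (g := (cn x).comp (Pr N)) ?_ u
  · simpa using this
  · intro w
    by_cases h : w.length = N <;> simp [h]

lemma Pr_zero_cn (x : M) (u : Ch M) : Pr 0 (cn x u) = 0 := by
  have := ext_words (f := (Pr 0).comp (cn x)) (g := 0) ?_ u
  · simpa using this
  · intro w
    simp

variable [Monoid M]

lemma Pr_rest (N : ℕ) (x : M) (w : List M) :
    Pr N (rest x w) = if w.length = N then rest x w else 0 := by
  induction w generalizing x N with
  | nil => simp [rest, eq_comm]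
  | cons y w ih =>
    cases N with
    | zero => simp [rest, Pr_zero_cn]
    | succ N =>
      rw [rest, map_sub, Pr_cn, ih]
      by_cases h : w.length = N <;> simp [h]

lemma Pr_bar (N : ℕ) (u : Ch M) : bar (Pr (N + 1) u) = Pr N (bar u) := by
  have := ext_words (f := bar.comp (Pr (N + 1))) (g := (Pr N).comp bar) ?_ u
  · simpa using this
  · intro w
    cases w with
    | nil => simp [bdw]
    | cons y w =>
      by_cases h : w.length = N <;> simp [bdw, Pr_rest, h]

lemma Pr_cap (D : Dat M) (N : ℕ) (u : Ch M) : cap D (Pr (N + 2) u) = Pr N (cap D u) := by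
  have := ext_words (f := (cap D).comp (Pr (N + 2))) (g := (Pr N).comp (cap D)) ?_ u
  · simpa using this
  · intro w
    simp only [LinearMap.comp_apply, Pr_single, cap_single]
    match w with
    | [] => simp [capw]
    | [g] => simp [capw]
    | g :: h :: w =>
      by_cases hw : w.length = N
      · simp only [List.length_cons, hw, if_true, cap_single, capw, map_smul, Pr_single]
      · have h2 : ¬ ((g :: h :: w).length = N + 2) := by simpa using hw
        simp only [h2, hw, if_false, capw, map_smul, Pr_single, map_zero, smul_zero]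

omit [Monoid M] in
lemma Pr_zero (u : Ch M) : Pr 0 u = u [] • Finsupp.single [] 1 := by
  have := ext_words (f := Pr 0)
    (g := (LinearMap.toSpanSingleton ℤ (Ch M) (Finsupp.single [] 1)).comp (Finsupp.lapply [])) ?_ u
  · simpa using this
  · intro w
    cases w <;> simp

lemma Pr_cap_iter (D : Dat M) (k : ℕ) (u : Ch M) :
    (cap D)^[k] (Pr (2 * k) u) = ((cap D)^[k] u) [] • Finsupp.single [] 1 := by
  rw [← Pr_zero]
  have : ∀ k N, (cap D)^[k] (Pr (2 * k + N) u) = Pr N ((cap D)^[k] u) := by
    intro k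
    induction k with
    | zero => intro N; simp
    | succ k ih =>
      intro N
      have e : 2 * (k + 1) + N = 2 * k + (N + 2) := by ring
      rw [Function.iterate_succ_apply', Function.iterate_succ_apply', ← Pr_cap, ← ih (N + 2), e]
  simpa using this k 0

/-- linear extension of a cochain -/
noncomputable def lin (φ : List M → ℚ) : Ch M →ₗ[ℤ] ℚ := Finsupp.linearCombination ℤ φ

omit [Monoid M] in
@[simp] lemma lin_single (φ : List M → ℚ) (w : List M) : lin φ (Finsupp.single w 1) = φ w := by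
  simp [lin]

/-- the `k`-th cup power of the cocycle, as a functional on integral chains -/
noncomputable def eul (D : Dat M) (k : ℕ) : Ch M →ₗ[ℤ] ℤ :=
  (Finsupp.lapply []).comp ((cap D) ^ k)

lemma eul_apply (D : Dat M) (k : ℕ) (u : Ch M) : eul D k u = ((cap D)^[k] u) [] := by
  simp [eul, Module.End.pow_apply]

/-- the `k`-th cup power is a rational coboundary -/
def RC (D : Dat M) (k : ℕ) : Prop := ∃ φ : List M → ℚ, ∀ u : Ch M, ((eul D k u : ℤ) : ℚ) = lin φ (bar u)

lemma RC_of_ker (D : Dat M) (k : ℕ) (h : ∀ u : Ch M, bar u = 0 → eul D k u = 0) : RC D k := by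
  let f : Ch M →ₗ[ℤ] ℚ := (Int.castAddHom ℚ).toIntLinearMap.comp (eul D k)
  have hf : LinearMap.ker (bar : Ch M →ₗ[ℤ] Ch M) ≤ LinearMap.ker f := by
    intro u hu
    rw [LinearMap.mem_ker] at hu ⊢
    simp [f, h u hu]
  let g : LinearMap.range (bar : Ch M →ₗ[ℤ] Ch M) →ₗ[ℤ] ℚ :=
    (Submodule.liftQ _ f hf).comp (LinearMap.quotKerEquivRange bar).symm.toLinearMap
  obtain ⟨G, hG⟩ := (Module.Baer.of_divisible ℚ).extension_property
    (LinearMap.range (bar : Ch M →ₗ[ℤ] Ch M)).subtype (Submodule.injective_subtype _) g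
  refine ⟨fun w => G (Finsupp.single w 1), ?_⟩
  intro u
  have h1 : lin (fun w => G (Finsupp.single w 1)) (bar u) = G (bar u) := by
    exact ext_words (f := lin (fun w => G (Finsupp.single w 1))) (g := G) (by intro w; simp) _
  rw [h1]
  have h2 := LinearMap.congr_fun hG ⟨bar u, LinearMap.mem_range_self _ u⟩
  have h3 : G (bar u) = g ⟨bar u, LinearMap.mem_range_self _ u⟩ := h2
  rw [h3]
  have h4 : (LinearMap.quotKerEquivRange (bar : Ch M →ₗ[ℤ] Ch M)).symm
      ⟨bar u, LinearMap.mem_range_self _ u⟩ = Submodule.Quotient.mk u := by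
    rw [LinearEquiv.symm_apply_eq]
    rfl
  simp only [g, LinearMap.comp_apply, LinearEquiv.coe_toLinearMap]
  rw [h4, Submodule.liftQ_apply]
  simp [f]

/-- Families of twisted sections, one for every `n ≥ 2`. -/
structure Fam (D : Dat M) where
  /-- the element of order `n` -/
  c : ℕ → M
  /-- the section -/
  σ : ℕ → M → M
  rel : ∀ n, 2 ≤ n → Rel D n (c n) (σ n)
  pw : ∀ l m, 2 ≤ l → 1 ≤ m → c (l * m) ^ m = c l
  val : ∀ n, 2 ≤ n → ∀ j < n, D.χ (c n ^ j) (c n) = if j + 1 = n then 1 else 0

/-- the chain is a boundary in the integral bar complex -/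
def Bounds (z : Ch M) : Prop := ∃ W : Ch M, bar W = z

lemma Bounds.add {z z' : Ch M} (h : Bounds z) (h' : Bounds z') : Bounds (z + z') := by
  obtain ⟨W, rfl⟩ := h; obtain ⟨W', rfl⟩ := h'
  exact ⟨W + W', by simp⟩

lemma Bounds.neg {z : Ch M} (h : Bounds z) : Bounds (-z) := by
  obtain ⟨W, rfl⟩ := h
  exact ⟨-W, by simp⟩

variable {D : Dat M}

lemma cap_cn_cn (g h : M) (v : Ch M) : cap D (cn g (cn h v)) = D.χ g h • v := by
  have := ext_words (f := (cap D).comp ((cn g).comp (cn h)))
    (g := D.χ g h • LinearMap.id) ?_ v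
  · simpa using this
  · intro w; simp [capw]

lemma cap_evn (F : Fam D) (n : ℕ) (hn : 2 ≤ n) (k : ℕ) :
    cap D (evn (F.c n) n (k + 1)) = evn (F.c n) n k := by
  have h0 : cap D (evn (F.c n) n (k + 1))
      = ∑ j ∈ range n, D.χ (F.c n ^ j) (F.c n) • evn (F.c n) n k := by
    rw [evn, map_sum]
    refine Finset.sum_congr rfl ?_
    intro j _
    rw [cyc_eq, cap_cn_cn]
  rw [h0]
  have h1 : ∀ j ∈ range n, D.χ (F.c n ^ j) (F.c n) • evn (F.c n) n k
      = if j = n - 1 then evn (F.c n) n k else 0 := by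
    intro j hj
    rw [F.val n hn j (mem_range.1 hj)]
    by_cases h : j = n - 1
    · have : j + 1 = n := by omega
      simp [h]; omega
    · have : ¬ (j + 1 = n) := by omega
      simp [h, this]
  rw [Finset.sum_congr rfl h1, Finset.sum_ite_eq']
  simp; omega

lemma eul_evn (F : Fam D) (n : ℕ) (hn : 2 ≤ n) (k : ℕ) : eul D k (evn (F.c n) n k) = 1 := by
  rw [eul_apply]
  have : ∀ k, (cap D)^[k] (evn (F.c n) n k) = Finsupp.single [] 1 := by
    intro k
    induction k with
    | zero => rfl
    | succ k ih => rw [Function.iterate_succ_apply, cap_evn F n hn, ih]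
  rw [this]; simp

/-- If a proper multiple of a standard cycle bounds then the power of the cocycle is not a
rational coboundary. -/
theorem not_RC_of_bounds (F : Fam D) (k n m : ℕ) (hm : 0 < m) (hmn : m < n)
    (hb : Bounds ((m : ℤ) • cyc (F.c n) n k)) : ¬ RC D (k + 1) := by
  rintro ⟨φ, hφ⟩
  obtain ⟨w, hw⟩ := hb
  have hn : 2 ≤ n := by omega
  have hc := (F.rel n hn).hc
  have h1 := hφ ((n : ℤ) • w - (m : ℤ) • evn (F.c n) n (k + 1))
  rw [map_sub bar, map_smul bar, map_smul bar, hw, bar_evn hc, smul_smul, smul_smul, mul_comm (m : ℤ),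
    sub_self, map_zero, map_sub, map_smul, map_smul, eul_evn F n hn] at h1
  have h2 : (n : ℤ) * eul D (k + 1) w = m := by
    have : ((n : ℤ) * eul D (k + 1) w - m : ℤ) = 0 := by
      have h3 := h1
      simp only [smul_eq_mul, mul_one] at h3
      exact_mod_cast h3
    linarith
  have h3 : (n : ℤ) ∣ m := ⟨_, h2.symm⟩
  have h4 := Int.le_of_dvd (by exact_mod_cast hm) h3
  omega

/-- If the power of the cocycle is not a rational coboundary then all standard cycles bound. -/
theorem bounds_of_not_RC (F : Fam D) (k : ℕ) (h : ¬ RC D (k + 1)) (l : ℕ) (hl : 2 ≤ l) :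
    Bounds (cyc (F.c l) l k) := by
  have h1 : ∃ u : Ch M, bar u = 0 ∧ eul D (k + 1) u ≠ 0 := by
    by_contra hcon
    push Not at hcon
    exact h (RC_of_ker D (k + 1) hcon)
  obtain ⟨u, hu, hne⟩ := h1
  set e := eul D (k + 1) u with he
  set x := Pr (2 * (k + 1)) u with hx
  have hx0 : bar x = 0 := by
    rw [hx, show 2 * (k + 1) = (2 * k + 1) + 1 by ring, Pr_bar, hu, map_zero]
  have hxe : (cap D)^[k + 1] x = e • Finsupp.single [] 1 := by
    rw [hx, Pr_cap_iter, he, eul_apply]
  set m := e.natAbs with hm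
  have hm1 : 1 ≤ m := by omega
  have hn : 2 ≤ l * m := le_trans hl (Nat.le_mul_of_pos_right l hm1)
  have hR := F.rel (l * m) hn
  obtain ⟨W, hW⟩ := (bounds_of_cycle D hR x hx0 k).2
  rw [hxe, map_smul, Od_single, (od_nil D _ _ _ k).1] at hW
  have hb : Bounds ((m : ℤ) • cyc (F.c (l * m)) (l * m) k) := by
    rcases le_total 0 e with h0 | h0
    · refine ⟨-W, ?_⟩
      rw [map_neg, hW, neg_neg, hm, Int.natCast_natAbs, abs_of_nonneg h0]
    · refine ⟨W, ?_⟩
      rw [hW, hm, Int.natCast_natAbs, abs_of_nonpos h0, neg_smul]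
  have h2 := bar_hO (c := F.c (l * m)) (m := m) (l := l) (by omega) hR.hc k
  rw [F.pw l m hl hm1] at h2
  obtain ⟨V, hV⟩ := hb
  exact ⟨hO (F.c (l * m)) m l k + V, by rw [map_add, h2, hV]; abel⟩

end Pool.Agent.EUL
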