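import Pool.Agent.EUL.Fin

set_option autoImplicit false

open Finset

/-!
Every finite subgroup of the group of orientation-preserving real-analytic diffeomorphisms of the
circle is conjugate to a group of rotations (average of the normalised lifts).
-/

namespace Pool.Agent.EUL

/-- the average of the normalised lifts of the elements of a finite subgroup -/
noncomputable def avg (F : Subgroup DiffAn) [Fintype F] (x : ℝ) : ℝ :=
  (∑ f : F, f.1.val x) / (Fintype.card F : ℝ)

lemma isLift_avg (F : Subgroup DiffAn) [Fintype F] : IsLift (avg F) := by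
  have hc : (0 : ℝ) < (Fintype.card F : ℝ) := by exact_mod_cast Fintype.card_pos
  refine ⟨?_, ?_, ?_, ?_, ?_, ?_⟩
  · intro x
    unfold avg
    have : ∑ f : F, f.1.val (x + 1) = ∑ f : F, f.1.val x + (Fintype.card F : ℝ) := by
      rw [Finset.sum_congr rfl (fun f _ => f.1.isLift.1 x), Finset.sum_add_distrib]
      simp
    rw [this, add_div, div_self hc.ne']
  · exact div_nonneg (Finset.sum_nonneg (fun f _ => f.1.isLift.2.1)) hc.le
  · rw [avg, div_lt_one hc]
    have : ∑ f : F, f.1.val 0 < ∑ f : F, (1 : ℝ) :=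
      Finset.sum_lt_sum_of_nonempty ⟨1, Finset.mem_univ _⟩ (fun f _ => f.1.isLift.2.2.1)
    simpa using this
  · intro x y hxy
    exact (div_lt_div_iff_of_pos_right hc).2 (Finset.sum_lt_sum_of_nonempty ⟨1, Finset.mem_univ _⟩
      (fun f _ => f.1.isLift.2.2.2.1 hxy))
  · have : AnalyticOnNhd ℝ (fun x => ∑ f : F, f.1.val x) Set.univ :=
      Finset.analyticOnNhd_fun_sum _ (fun f _ => f.1.isLift.2.2.2.2.1)
    exact this.div_const
  · intro x
    have h1 : HasDerivAt (fun x => ∑ f : F, f.1.val x) (∑ f : F, deriv f.1.val x) x :=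
      HasDerivAt.fun_sum
        (fun f _ => (f.1.isLift.2.2.2.2.1 x (Set.mem_univ _)).differentiableAt.hasDerivAt)
    have h2 := (h1.div_const (Fintype.card F : ℝ)).deriv
    change 0 < deriv (fun x => (∑ f : F, f.1.val x) / (Fintype.card F : ℝ)) x
    rw [h2]
    exact div_pos (Finset.sum_pos (fun f _ => f.1.isLift.2.2.2.2.2 x) ⟨1, Finset.mem_univ _⟩) hc

/-- the average is equivariant: an element of the subgroup becomes a translation -/
lemma avg_apply (F : Subgroup DiffAn) [Fintype F] (g : F) (x : ℝ) :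
    avg F (g.1.val x)
      = avg F x + ((∑ f : F, ⌊f.1.val (g.1.val 0)⌋ : ℤ) : ℝ) / (Fintype.card F : ℝ) := by
  unfold avg
  rw [← add_div]
  congr 1
  have h1 : ∀ f : F, f.1.val (g.1.val x)
      = (f * g : F).1.val x + ((⌊f.1.val (g.1.val 0)⌋ : ℤ) : ℝ) := by
    intro f
    have : (f * g : F).1.val x = f.1.val (g.1.val x) - ((⌊f.1.val (g.1.val 0)⌋ : ℤ) : ℝ) := by
      rw [Subgroup.coe_mul, mul_val]
    rw [this]; ring
  rw [Finset.sum_congr rfl (fun f _ => h1 f), Finset.sum_add_distrib]
  push_cast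
  congr 1
  exact Equiv.sum_comp (Equiv.mulRight g) (fun f : F => f.1.val x)

/-- A finite subgroup with `n ≥ 2` elements is conjugate to the group generated by the rotation by
`1/n`. -/
theorem conj_rot (F : Subgroup DiffAn) (n : ℕ) (hn : 2 ≤ n) (hF : Nat.card F = n) :
    ∃ h : DiffAn, F.map (MulAut.conj h).toMonoidHom = Subgroup.zpowers (rot n) := by
  have hn0 : 0 < n := by omega
  have : Finite F := Nat.finite_of_card_ne_zero (by omega)
  have : Fintype F := Fintype.ofFinite F
  have hF' : Fintype.card F = n := by rw [← hF, Nat.card_eq_fintype_card]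
  have hnr : (0 : ℝ) < n := by exact_mod_cast hn0
  let h : DiffAn := ⟨avg F, isLift_avg F⟩
  refine ⟨h, ?_⟩
  have hcz : Nat.card (Subgroup.zpowers (rot n)) = n := by rw [Nat.card_zpowers, orderOf_rot n hn]
  have : Finite (Subgroup.zpowers (rot n)) := Nat.finite_of_card_ne_zero (by omega)
  apply Subgroup.eq_of_le_of_card_ge
  · rintro y ⟨g, hg, rfl⟩
    have key : ∀ x, avg F (g.val x)
        = avg F x + ((∑ f : F, ⌊f.1.val (g.val 0)⌋ : ℤ) : ℝ) / (n : ℝ) := by
      intro x
      have := avg_apply F ⟨g, hg⟩ x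
      rw [hF'] at this
      exact this
    set m : ℤ := ∑ f : F, ⌊f.1.val (g.val 0)⌋ with hm
    have hk0 : 0 ≤ m % n := Int.emod_nonneg _ (by omega)
    have hkn : m % n < n := Int.emod_lt_of_pos _ (by omega)
    obtain ⟨k, hk⟩ : ∃ k : ℕ, (k : ℤ) = m % n := ⟨(m % n).toNat, Int.toNat_of_nonneg hk0⟩
    have hkl : k < n := by omega
    have hmk : (m : ℝ) / n = (k : ℝ) / n + ((m / n : ℤ) : ℝ) := by
      have e1 : m = k + n * (m / n) := by
        rw [hk]; exact (Int.emod_add_mul_ediv m n).symm
      have e2 : (m : ℝ) = (k : ℝ) + (n : ℝ) * ((m / n : ℤ) : ℝ) := by exact_mod_cast e1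
      rw [e2]
      field_simp
    have h1 : h * g = rot n ^ k * h := by
      apply DiffAn.ext
      rw [mul_val, mul_val, rot_pow n hn k hkl]
      funext x
      change avg F (g.val x) - ((⌊avg F (g.val 0)⌋ : ℤ) : ℝ)
        = avg F x + (k : ℝ) / n - ((⌊avg F 0 + (k : ℝ) / n⌋ : ℤ) : ℝ)
      rw [key, key, hmk, ← add_assoc, ← add_assoc, Int.floor_add_intCast]
      push_cast
      ring
    have h2 : (MulAut.conj h).toMonoidHom g = rot n ^ k := by
      change h * g * h⁻¹ = rot n ^ k
      rw [h1, mul_assoc, mul_inv_cancel, mul_one]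
    rw [h2]
    exact Subgroup.npow_mem_zpowers _ k
  · rw [hcz, Subgroup.card_map_of_injective (MulAut.conj h).injective, hF]

end Pool.Agent.EUL
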