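import Mathlib

set_option autoImplicit false

open Finset

namespace Pool.Agent.EUL

/-- Integral bar chains (trivial coefficients): formal integer combinations of words. -/
abbrev Ch (M : Type*) := List M →₀ ℤ

section basic

variable {M : Type*}

/-- Prefix a letter to every word. -/
noncomputable def cn (x : M) : Ch M →ₗ[ℤ] Ch M := Finsupp.lmapDomain ℤ ℤ (List.cons x)

@[simp] lemma cn_single (x : M) (w : List M) (a : ℤ) :
    cn x (Finsupp.single w a) = Finsupp.single (x :: w) a := by
  simp [cn, Finsupp.lmapDomain_apply, Finsupp.mapDomain_single]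

/-- two linear maps that agree on words agree -/
lemma ext_words {N : Type*} [AddCommGroup N] {f g : Ch M →ₗ[ℤ] N}
    (h : ∀ w : List M, f (Finsupp.single w 1) = g (Finsupp.single w 1)) (u : Ch M) :
    f u = g u := by
  have : f = g := by
    apply Finsupp.lhom_ext
    intro w b
    have hb : (Finsupp.single w b : Ch M) = b • Finsupp.single w 1 := by
      rw [Finsupp.smul_single, smul_eq_mul, mul_one]
    rw [hb, map_smul, map_smul, h w]
  rw [this]

end basic

variable {M : Type*} [Monoid M]

/-- The faces of `[x | w]` except the first one, with alternating signs, the sign of the second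
face being `+`: `[xy₁|y₂|…] - [x|y₁y₂|…] + …`, the last term being the word without its last
letter. -/
noncomputable def rest (x : M) : List M → Ch M
  | [] => Finsupp.single [] 1
  | y :: w => Finsupp.single ((x * y) :: w) 1 - cn x (rest y w)

/-- The boundary of a word in the bar complex. -/
noncomputable def bdw : List M → Ch M
  | [] => 0
  | y :: w => Finsupp.single w 1 - rest y w

/-- The bar boundary. -/
noncomputable def bar : Ch M →ₗ[ℤ] Ch M := Finsupp.linearCombination ℤ bdw

/-- the linear form of `rest` -/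
noncomputable def R (x : M) : Ch M →ₗ[ℤ] Ch M := Finsupp.linearCombination ℤ (rest x)

@[simp] lemma bar_single (w : List M) : bar (Finsupp.single w 1) = bdw w := by
  simp [bar]

@[simp] lemma R_single (x : M) (w : List M) : R x (Finsupp.single w 1) = rest x w := by
  simp [R]

lemma R_cn (x y : M) (u : Ch M) : R x (cn y u) = cn (x * y) u - cn x (R y u) := by
  have := ext_words (f := (R x).comp (cn y)) (g := cn (x * y) - (cn x).comp (R y)) ?_ u
  · simpa using this
  · intro w
    simp [rest]

lemma bar_cn (x : M) (u : Ch M) : bar (cn x u) = u - R x u := by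
  have := ext_words (f := bar.comp (cn x)) (g := LinearMap.id - R x) ?_ u
  · simpa using this
  · intro w
    simp [bdw]

/-- minus the boundary without the first face -/
noncomputable def rhow : List M → Ch M
  | [] => 0
  | y :: w => rest y w

/-- The data of the family: a central element `c` and a twisted multiplicative section `σ`. -/
structure Dat (M : Type*) [Monoid M] where
  /-- the cocycle -/
  χ : M → M → ℤ
  /-- its values are 0 and 1 -/
  h01 : ∀ g h, χ g h = 0 ∨ χ g h = 1
  /-- cocycle identity -/
  coc : ∀ g h l, χ g h + χ (g * h) l = χ h l + χ g (h * l)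

variable (D : Dat M)

/-- cap product with the cocycle -/
noncomputable def capw : List M → Ch M
  | [] => 0
  | [_] => 0
  | g :: h :: w => D.χ g h • Finsupp.single w 1

/-- cap product with the cocycle, linear -/
noncomputable def cap : Ch M →ₗ[ℤ] Ch M := Finsupp.linearCombination ℤ (capw D)

@[simp] lemma cap_single (w : List M) : cap D (Finsupp.single w 1) = capw D w := by
  simp [cap]

mutual
/-- the chains `t_{2i}(w)` -/
noncomputable def ev (n : ℕ) (c : M) (σ : M → M) : ℕ → List M → Ch M
  | 0, [] => Finsupp.single [] 1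
  | 0, [g] => cn (σ g) (ev n c σ 0 [])
  | 0, g :: h :: w => cn (σ g) (ev n c σ 0 (h :: w)) - D.χ g h • cn (σ (g * h)) (od n c σ 0 w)
  | i + 1, [] => ∑ j ∈ range n, cn (c ^ j) (od n c σ i [])
  | i + 1, [g] => cn (σ g) (ev n c σ (i + 1) []) + ∑ j ∈ range n, cn (c ^ j) (od n c σ i [g])
  | i + 1, g :: h :: w => cn (σ g) (ev n c σ (i + 1) (h :: w))
      + ∑ j ∈ range n, cn (c ^ j) (od n c σ i (g :: h :: w))
      - D.χ g h • cn (σ (g * h)) (od n c σ (i + 1) w)
termination_by i w => 2 * i + w.length

/-- the chains `t_{2i+1}(w)` -/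
noncomputable def od (n : ℕ) (c : M) (σ : M → M) : ℕ → List M → Ch M
  | i, [] => cn c (ev n c σ i [])
  | i, g :: w => cn c (ev n c σ i (g :: w)) - cn (σ g) (od n c σ i w)
termination_by i w => 2 * i + 1 + w.length
end

section Main

variable (n : ℕ) (c : M) (σ : M → M)

/-- linear form of `ev` -/
noncomputable def Ev (i : ℕ) : Ch M →ₗ[ℤ] Ch M := Finsupp.linearCombination ℤ (ev D n c σ i)

/-- linear form of `od` -/
noncomputable def Od (i : ℕ) : Ch M →ₗ[ℤ] Ch M := Finsupp.linearCombination ℤ (od D n c σ i)

@[simp] lemma Ev_single (i : ℕ) (w : List M) :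
    Ev D n c σ i (Finsupp.single w 1) = ev D n c σ i w := by simp [Ev]

@[simp] lemma Od_single (i : ℕ) (w : List M) :
    Od D n c σ i (Finsupp.single w 1) = od D n c σ i w := by simp [Od]

/-- the term with the cocycle -/
noncomputable def kap (i : ℕ) (g : M) : List M → Ch M
  | [] => 0
  | h :: w => D.χ g h • cn (σ (g * h)) (od D n c σ i w)

/-- linear form of `kap` -/
noncomputable def Kap (i : ℕ) (g : M) : Ch M →ₗ[ℤ] Ch M :=
  Finsupp.linearCombination ℤ (kap D n c σ i g)

@[simp] lemma Kap_single (i : ℕ) (g : M) (w : List M) :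
    Kap D n c σ i g (Finsupp.single w 1) = kap D n c σ i g w := by simp [Kap]

lemma Kap_cn (i : ℕ) (g h : M) (u : Ch M) :
    Kap D n c σ i g (cn h u) = D.χ g h • cn (σ (g * h)) (Od D n c σ i u) := by
  have := ext_words (f := (Kap D n c σ i g).comp (cn h))
    (g := D.χ g h • (cn (σ (g * h))).comp (Od D n c σ i)) ?_ u
  · simpa using this
  · intro w
    simp [kap]

lemma od_cons (i : ℕ) (g : M) (w : List M) :
    od D n c σ i (g :: w) = cn c (ev D n c σ i (g :: w)) - cn (σ g) (od D n c σ i w) := by
  rw [od]

lemma ev_zero_cons (g : M) (w : List M) :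
    ev D n c σ 0 (g :: w) = cn (σ g) (ev D n c σ 0 w) - kap D n c σ 0 g w := by
  cases w with
  | nil => conv_lhs => rw [ev]
           simp [kap]
  | cons h w => conv_lhs => rw [ev]
                simp [kap]

lemma ev_succ_cons (i : ℕ) (g : M) (w : List M) :
    ev D n c σ (i + 1) (g :: w) = cn (σ g) (ev D n c σ (i + 1) w)
      + ∑ j ∈ range n, cn (c ^ j) (od D n c σ i (g :: w)) - kap D n c σ (i + 1) g w := by
  cases w with
  | nil => conv_lhs => rw [ev]
           simp [kap]
  | cons h w => conv_lhs => rw [ev]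
                simp [kap]

lemma Od_cn (i : ℕ) (g : M) (u : Ch M) :
    Od D n c σ i (cn g u) = cn c (Ev D n c σ i (cn g u)) - cn (σ g) (Od D n c σ i u) := by
  have := ext_words (f := (Od D n c σ i).comp (cn g))
    (g := (cn c).comp ((Ev D n c σ i).comp (cn g)) - (cn (σ g)).comp (Od D n c σ i)) ?_ u
  · simpa using this
  · intro w
    simp [od_cons]

lemma Ev_zero_cn (g : M) (u : Ch M) :
    Ev D n c σ 0 (cn g u) = cn (σ g) (Ev D n c σ 0 u) - Kap D n c σ 0 g u := by
  have := ext_words (f := (Ev D n c σ 0).comp (cn g))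
    (g := (cn (σ g)).comp (Ev D n c σ 0) - Kap D n c σ 0 g) ?_ u
  · simpa using this
  · intro w
    simp [ev_zero_cons]

lemma Ev_succ_cn (i : ℕ) (g : M) (u : Ch M) :
    Ev D n c σ (i + 1) (cn g u) = cn (σ g) (Ev D n c σ (i + 1) u)
      + ∑ j ∈ range n, cn (c ^ j) (Od D n c σ i (cn g u)) - Kap D n c σ (i + 1) g u := by
  have := ext_words (f := (Ev D n c σ (i + 1)).comp (cn g))
    (g := (cn (σ g)).comp (Ev D n c σ (i + 1))
      + ∑ j ∈ range n, (cn (c ^ j)).comp ((Od D n c σ i).comp (cn g)) - Kap D n c σ (i + 1) g) ?_ u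
  · simpa [LinearMap.sum_apply] using this
  · intro w
    simp [ev_succ_cons, LinearMap.sum_apply]

lemma rhow_cons_cons (g h : M) (w : List M) :
    rhow (g :: h :: w) = Finsupp.single ((g * h) :: w) 1 - cn g (rhow (h :: w)) := by
  simp [rhow, rest]

end Main

end Pool.Agent.EUL
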