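import Pool.Agent.EUL.Abs

set_option autoImplicit false

open Finset

namespace Pool.Agent.EUL

variable {M : Type*}

/-- the word `[G 0 | … | G (N-1)]` -/
def wd (G : ℕ → M) (N : ℕ) : List M := (List.range N).map G

lemma wd_succ (G : ℕ → M) (N : ℕ) : wd G (N + 1) = G 0 :: wd (fun j => G (j + 1)) N := by
  simp [wd, List.range_succ_eq_map, Function.comp_def]

lemma wd_congr (G G' : ℕ → M) (N : ℕ) (h : ∀ j < N, G j = G' j) : wd G N = wd G' N := by
  simp only [wd]
  apply List.map_congr_left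
  intro j hj
  exact h j (List.mem_range.1 hj)

@[simp] lemma wd_length (G : ℕ → M) (N : ℕ) : (wd G N).length = N := by simp [wd]

variable [Monoid M]

/-- merge the letters `i` and `i+1` -/
def mg (G : ℕ → M) (i : ℕ) : ℕ → M := fun j =>
  if j < i then G j else if j = i then G i * G (i + 1) else G (j + 1)

lemma lin_cn (ψ : List M → ℚ) (x : M) (u : Ch M) :
    lin ψ (cn x u) = lin (fun w => ψ (x :: w)) u := by
  have := ext_words (f := (lin ψ).comp (cn x)) (g := lin (fun w => ψ (x :: w))) ?_ u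
  · simpa using this
  · intro w; simp

lemma lin_rest (N : ℕ) : ∀ (G : ℕ → M) (ψ : List M → ℚ),
    lin ψ (rest (G 0) (wd (fun j => G (j + 1)) N))
      = ∑ i ∈ range N, (-1) ^ i * ψ (wd (mg G i) N) + (-1) ^ N * ψ (wd G N) := by
  induction N with
  | zero => intro G ψ; simp [wd, rest]
  | succ N ih =>
    intro G ψ
    rw [wd_succ (fun j => G (j + 1)), rest, map_sub, lin_cn, lin_single]
    have h1 := ih (fun j => G (j + 1)) (fun w => ψ (G 0 :: w))
    rw [h1, Finset.sum_range_succ']
    have e0 : wd (mg G 0) (N + 1) = (G 0 * G (0 + 1)) :: wd (fun j => G (j + 1 + 1)) N := by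
      rw [wd_succ]
      simp [mg]
    have e1 : ∀ i, wd (mg G (i + 1)) (N + 1) = G 0 :: wd (mg (fun j => G (j + 1)) i) N := by
      intro i
      rw [wd_succ]
      congr 1
      apply wd_congr
      intro j _
      simp [mg]
    have e2 : wd G (N + 1) = G 0 :: wd (fun j => G (j + 1)) N := wd_succ G N
    simp only [e1]
    rw [e0, e2]
    have e3 : ∑ x ∈ range N, (-1 : ℚ) ^ (x + 1) * ψ (G 0 :: wd (mg (fun j => G (j + 1)) x) N)
        = - ∑ x ∈ range N, (-1 : ℚ) ^ x * ψ (G 0 :: wd (mg (fun j => G (j + 1)) x) N) := by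
      rw [← Finset.sum_neg_distrib]
      refine Finset.sum_congr rfl ?_
      intro x _
      ring
    rw [e3]
    ring

lemma lin_bdw (N : ℕ) (G : ℕ → M) (ψ : List M → ℚ) :
    lin ψ (bdw (wd G (N + 1))) = ψ (wd (fun j => G (j + 1)) N)
      + ∑ i ∈ range N, (-1) ^ (i + 1) * ψ (wd (mg G i) N) + (-1) ^ (N + 1) * ψ (wd G N) := by
  rw [wd_succ, bdw, map_sub, lin_single, lin_rest]
  have e3 : ∑ x ∈ range N, (-1 : ℚ) ^ (x + 1) * ψ (wd (mg G x) N)
      = - ∑ x ∈ range N, (-1 : ℚ) ^ x * ψ (wd (mg G x) N) := by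
    rw [← Finset.sum_neg_distrib]
    refine Finset.sum_congr rfl ?_
    intro x _
    ring
  rw [e3]
  ring

lemma eul_wd (D : Dat M) (k : ℕ) : ∀ (G : ℕ → M),
    eul D k (Finsupp.single (wd G (2 * k)) 1) = ∏ i ∈ range k, D.χ (G (2 * i)) (G (2 * i + 1)) := by
  induction k with
  | zero => intro G; simp [eul_apply, wd]
  | succ k ih =>
    intro G
    rw [eul_apply, Function.iterate_succ_apply, cap_single]
    have e : 2 * (k + 1) = 2 * k + 1 + 1 := by ring
    rw [e, wd_succ, wd_succ, capw]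
    have h1 : (cap D)^[k] (D.χ (G 0) (G (0 + 1)) • Finsupp.single (wd (fun j => G (j + 1 + 1)) (2 * k)) 1)
        = D.χ (G 0) (G (0 + 1)) • (cap D)^[k] (Finsupp.single (wd (fun j => G (j + 1 + 1)) (2 * k)) 1) := by
      rw [← Module.End.pow_apply, map_smul, Module.End.pow_apply]
    rw [h1, Finsupp.smul_apply, ← eul_apply, ih, Finset.prod_range_succ', smul_eq_mul, mul_comm]
    congr 1

/-- words of the wrong length do not contribute -/
lemma eul_wrong (D : Dat M) (k : ℕ) (w : List M) (h : w.length ≠ 2 * k) :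
    eul D k (Finsupp.single w 1) = 0 := by
  have h1 := Pr_cap_iter D k (Finsupp.single w 1)
  rw [Pr_single, if_neg h] at h1
  have h2 : (cap D)^[k] (0 : Ch M) = 0 := by
    rw [← Module.End.pow_apply, map_zero]
  rw [h2] at h1
  have h3 := congrArg (fun v : Ch M => v []) h1
  simp at h3
  rw [eul_apply]
  exact h3.symm

lemma lin_wrong (N : ℕ) (ψ : List M → ℚ) (hψ : ∀ v : List M, v.length ≠ N → ψ v = 0) (w : List M)
    (h : w.length ≠ N + 1) : lin ψ (bdw w) = 0 := by
  have h1 : ∀ u : Ch M, lin ψ u = lin ψ (Pr N u) := by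
    intro u
    have := ext_words (f := lin ψ) (g := (lin ψ).comp (Pr N)) ?_ u
    · simpa using this
    · intro v
      by_cases hv : v.length = N
      · simp [hv]
      · simp [hv, hψ v hv]
  rw [h1, ← bar_single, ← Pr_bar, Pr_single, if_neg h]
  simp

/-- every word is `wd` of something -/
lemma eq_wd (w : List M) : w = wd (fun j => w.getD j 1) w.length := by
  apply List.ext_getElem
  · simp
  · intro i h1 h2
    simp [wd, List.getD_eq_getElem, h1]

end Pool.Agent.EUL
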