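import Mathlib

/-! # The group of real-analytic circle diffeomorphisms, the powers of its Euler cocycle, and maps
in integral group homology -/

set_option autoImplicit false

namespace Pool.Agent.EUL

/-- Normalised lifts to `ℝ` of orientation-preserving real-analytic diffeomorphisms of the circle
`ℝ/ℤ`: the conditions of the frozen statement. -/
def IsLift (g : ℝ → ℝ) : Prop :=
  (∀ x, g (x + 1) = g x + 1) ∧ 0 ≤ g 0 ∧ g 0 < 1 ∧ StrictMono g ∧
    AnalyticOnNhd ℝ g Set.univ ∧ ∀ x, 0 < deriv g x

/-- The orientation-preserving real-analytic diffeomorphisms of the circle, each given by its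
normalised lift. -/
@[ext] structure DiffAn where
  /-- the normalised lift -/
  val : ℝ → ℝ
  isLift : IsLift val

/-- Subtract the integer part of the value at `0`. -/
noncomputable def nrm (g : ℝ → ℝ) : ℝ → ℝ := fun x => g x - (⌊g 0⌋ : ℝ)

lemma add_int {g : ℝ → ℝ} (h : IsLift g) (x : ℝ) (m : ℤ) : g (x + m) = g x + m := by
  have := CircleDeg1Lift.map_add_int ⟨⟨g, h.2.2.2.1.monotone⟩, h.1⟩ x m
  exact this

lemma add_nat {g : ℝ → ℝ} (h : IsLift g) (x : ℝ) (m : ℕ) : g (x + m) = g x + m := by
  have := add_int h x m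
  push_cast at this
  exact this

lemma sub_int {g : ℝ → ℝ} (h : IsLift g) (x : ℝ) (m : ℤ) : g (x - m) = g x - m := by
  have := add_int h x (-m)
  push_cast at this
  rw [sub_eq_add_neg, this, sub_eq_add_neg]

lemma isLift_id : IsLift (fun x => x) := by
  refine ⟨fun x => rfl, le_refl _, by norm_num, strictMono_id, analyticOnNhd_id, ?_⟩
  intro x
  simp

lemma isLift_mul {g h : ℝ → ℝ} (hg : IsLift g) (hh : IsLift h) :
    IsLift (nrm (fun x => g (h x))) := by
  refine ⟨?_, ?_, ?_, ?_, ?_, ?_⟩
  · intro x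
    unfold nrm
    beta_reduce
    rw [hh.1, hg.1]; ring
  · exact sub_nonneg.2 (Int.floor_le _)
  · have := Int.lt_floor_add_one (g (h 0)); unfold nrm; linarith
  · intro x y hxy
    have := hg.2.2.2.1 (hh.2.2.2.1 hxy)
    show g (h x) - _ < g (h y) - _
    linarith
  · have h1 : AnalyticOnNhd ℝ (fun x => g (h x)) Set.univ :=
      hg.2.2.2.2.1.comp hh.2.2.2.2.1 (fun x _ => Set.mem_univ _)
    exact h1.sub analyticOnNhd_const
  · intro x
    have dg : DifferentiableAt ℝ g (h x) := (hg.2.2.2.2.1 (h x) (Set.mem_univ _)).differentiableAt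
    have dh : DifferentiableAt ℝ h x := (hh.2.2.2.2.1 x (Set.mem_univ _)).differentiableAt
    have h1 : HasDerivAt (fun x => g (h x)) (deriv g (h x) * deriv h x) x :=
      dg.hasDerivAt.comp x dh.hasDerivAt
    unfold nrm
    rw [(h1.sub_const _).deriv]
    exact mul_pos (hg.2.2.2.2.2 _) (hh.2.2.2.2.2 _)

lemma lift_surj {g : ℝ → ℝ} (h : IsLift g) : Function.Surjective g := by
  have hc : Continuous g := by
    rw [continuous_iff_continuousAt]
    intro x
    exact (h.2.2.2.2.1 x (Set.mem_univ _)).continuousAt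
  intro y
  have h1 : ∀ m : ℤ, g m = g 0 + m := by
    intro m
    have := add_int h 0 m
    rwa [zero_add] at this
  have e1 : g ((⌊y⌋ - 1 : ℤ) : ℝ) ≤ y := by
    rw [h1]
    have := Int.floor_le y
    have h2 := h.2.2.1
    push_cast
    linarith
  have e2 : y ≤ g ((⌊y⌋ + 1 : ℤ) : ℝ) := by
    rw [h1]
    have := Int.lt_floor_add_one y
    have h2 := h.2.1
    push_cast
    linarith
  obtain ⟨x, -, hx⟩ := intermediate_value_Icc (h.2.2.2.1.le_iff_le.1 (e1.trans e2)) hc.continuousOn
    ⟨e1, e2⟩
  exact ⟨x, hx⟩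

lemma isLift_inv {g : ℝ → ℝ} (h : IsLift g) :
    IsLift (nrm (Function.surjInv (lift_surj h))) := by
  let e : ℝ ≃o ℝ := StrictMono.orderIsoOfSurjective g h.2.2.2.1 (lift_surj h)
  have hes : Function.surjInv (lift_surj h) = e.symm := by
    funext x
    apply e.injective
    rw [e.apply_symm_apply]
    exact Function.surjInv_eq (lift_surj h) x
  rw [hes]
  let f := e.toHomeomorph.toOpenPartialHomeomorph
  have hA : AnalyticOnNhd ℝ (fun x => e.symm x) Set.univ := by
    intro y _
    obtain ⟨a, rfl⟩ := lift_surj h y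
    have ha := h.2.2.2.2.1 a (Set.mem_univ _)
    have hd : deriv g a ≠ 0 := (h.2.2.2.2.2 a).ne'
    have h2 : HasStrictDerivAt g (deriv g a) a := ha.hasStrictDerivAt
    have h3 : fderiv ℝ f a
        = (ContinuousLinearEquiv.unitsEquivAut ℝ (Units.mk0 _ hd) : ℝ →L[ℝ] ℝ) := by
      have : HasFDerivAt f (ContinuousLinearMap.toSpanSingleton ℝ (deriv g a)) a :=
        h2.hasDerivAt.hasFDerivAt
      rw [this.fderiv]
      ext
      simp
    exact f.analyticAt_symm' (a := a) (by trivial) ha h3
  refine ⟨?_, ?_, ?_, ?_, ?_, ?_⟩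
  · intro x
    unfold nrm
    beta_reduce
    have h1 : e.symm (x + 1) = e.symm x + 1 := by
      apply e.injective
      rw [e.apply_symm_apply]
      show x + 1 = g (e.symm x + 1)
      rw [h.1]
      have : g (e.symm x) = x := e.apply_symm_apply x
      rw [this]
    rw [h1]; ring
  · exact sub_nonneg.2 (Int.floor_le _)
  · have := Int.lt_floor_add_one (e.symm 0); unfold nrm; linarith
  · intro x y hxy
    have := e.symm.strictMono hxy
    show e.symm x - _ < e.symm y - _
    linarith
  · exact hA.sub analyticOnNhd_const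
  · intro x
    obtain ⟨a, rfl⟩ := lift_surj h x
    have h1 : HasDerivAt (fun x => e.symm x) (deriv (fun x => e.symm x) (g a)) (g a) :=
      (hA (g a) (Set.mem_univ _)).differentiableAt.hasDerivAt
    have h2 : HasDerivAt g (deriv g a) a :=
      (h.2.2.2.2.1 a (Set.mem_univ _)).differentiableAt.hasDerivAt
    have h3 : HasDerivAt (fun x => e.symm (g x)) (deriv (fun x => e.symm x) (g a) * deriv g a) a :=
      h1.comp a h2
    have h4 : (fun x => e.symm (g x)) = fun x => x := by
      funext x
      exact e.symm_apply_apply x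
    rw [h4] at h3
    have h5 := h3.unique (hasDerivAt_id' a)
    unfold nrm
    rw [(h1.sub_const _).deriv]
    have h6 := h.2.2.2.2.2 a
    by_contra hneg
    push Not at hneg
    have : deriv (fun x => e.symm x) (g a) * deriv g a ≤ 0 := mul_nonpos_of_nonpos_of_nonneg hneg h6.le
    linarith

/-- composition, normalised -/
noncomputable instance : Mul DiffAn := ⟨fun g h => ⟨nrm (fun x => g.val (h.val x)), isLift_mul g.2 h.2⟩⟩

/-- the identity -/
instance : One DiffAn := ⟨⟨fun x => x, isLift_id⟩⟩

/-- the inverse function, normalised -/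
noncomputable instance : Inv DiffAn := ⟨fun g => ⟨nrm (Function.surjInv (lift_surj g.2)), isLift_inv g.2⟩⟩

lemma mul_val (g h : DiffAn) :
    (g * h).1 = fun x => g.1 (h.1 x) - ((⌊g.1 (h.1 0)⌋ : ℤ) : ℝ) := rfl

lemma one_val : (1 : DiffAn).1 = fun x => x := rfl

lemma mul_assoc_DiffAn (g h l : DiffAn) : g * h * l = g * (h * l) := by
  apply DiffAn.ext
  funext x
  simp only [mul_val]
  rw [sub_int g.2, sub_int g.2, Int.floor_sub_intCast, Int.floor_sub_intCast]
  push_cast
  ring

lemma one_mul_DiffAn (g : DiffAn) : 1 * g = g := by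
  apply DiffAn.ext
  funext x
  simp only [mul_val, one_val]
  have : ⌊g.1 0⌋ = 0 := Int.floor_eq_zero_iff.2 ⟨g.2.2.1, g.2.2.2.1⟩
  rw [this]; simp

lemma inv_mul_DiffAn (g : DiffAn) : g⁻¹ * g = 1 := by
  apply DiffAn.ext
  have h1 : ∀ x, Function.surjInv (lift_surj g.2) (g.1 x) = x := fun x =>
    g.2.2.2.2.1.injective (Function.surjInv_eq (lift_surj g.2) (g.1 x))
  show nrm (fun x => nrm (Function.surjInv (lift_surj g.2)) (g.1 x)) = fun x => x
  funext x
  simp only [nrm]
  rw [h1, h1, zero_sub, ← Int.cast_neg, Int.floor_intCast]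
  push_cast
  ring

/-- The group of orientation-preserving real-analytic diffeomorphisms of the circle. -/
noncomputable instance : Group DiffAn :=
  Group.ofLeftAxioms mul_assoc_DiffAn one_mul_DiffAn inv_mul_DiffAn

/-- The clause of the frozen statement S13129 for the exponent `k`: the `k`-th cup power of the
Euler cocycle is a rational coboundary. -/
def EulerPowerZero (k : ℕ) : Prop :=
  ∃ φ : (Fin (2 * k - 1) → ℝ → ℝ) → ℚ,
      ∀ g : ℕ → ℝ → ℝ,
        (∀ j, j < 2 * k →
          ((∀ x, g j (x + 1) = g j x + 1) ∧ 0 ≤ g j 0 ∧ g j 0 < 1 ∧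
            StrictMono (g j) ∧ AnalyticOnNhd ℝ (g j) Set.univ ∧ ∀ x, 0 < deriv (g j) x)) →
        (∏ i ∈ Finset.range k, (((⌊g (2 * i) (g (2 * i + 1) 0)⌋ : ℤ) : ℚ))) =
          φ (fun j => g (j.val + 1))
          + ∑ i : Fin (2 * k - 1), (-1 : ℚ) ^ (i.val + 1) *
              φ (fun j => if j.val < i.val then g j.val
                else if j.val = i.val then
                  (fun x => g i.val (g (i.val + 1) x) - ((⌊g i.val (g (i.val + 1) 0)⌋ : ℤ) : ℝ))
                else g (j.val + 1))
          + (-1 : ℚ) ^ (2 * k) * φ (fun j => g j.val)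

/-- The value of the `k`-th cup power of the Euler cocycle on an integral chain of degree `2k`. -/
noncomputable def eulerValue (k : ℕ) (x : (Fin (2 * k) → DiffAn) →₀ ℤ) : ℤ :=
  x.sum fun g a => a * ∏ i : Fin k,
    ⌊(g ⟨2 * i, by omega⟩).val ((g ⟨2 * i + 1, by omega⟩).val 0)⌋

open CategoryTheory

/-- Integral group homology (Mathlib's, trivial coefficients). -/
noncomputable abbrev HG (G : Type) [Group G] (n : ℕ) : ModuleCat ℤ :=
  groupHomology (Rep.trivial ℤ G ℤ) n

/-- The map in integral homology induced by a group homomorphism. -/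
noncomputable abbrev mapG {G H : Type} [Group G] [Group H] (f : G →* H) (n : ℕ) :
    HG G n ⟶ HG H n :=
  groupHomology.map (A := Rep.trivial ℤ G ℤ) (B := Rep.trivial ℤ H ℤ) f (𝟙 _) n

/-- The map in integral homology of degree `n` induced by the homomorphism is zero. -/
def HZero {G H : Type} [Group G] [Group H] (f : G →* H) (n : ℕ) : Prop := mapG f n = 0

/-- The map in integral homology of degree `n` induced by the homomorphism is injective. -/
def HInj {G H : Type} [Group G] [Group H] (f : G →* H) (n : ℕ) : Prop :=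
  Function.Injective (mapG f n)

/-- The differential (from degree `n + 1` to degree `n`) of Mathlib's complex of inhomogeneous
chains which computes this homology. -/
noncomputable abbrev dG (G : Type) [Group G] (n : ℕ) :
    ((Fin (n + 1) → G) →₀ ℤ) →ₗ[ℤ] ((Fin n → G) →₀ ℤ) :=
  (groupHomology.inhomogeneousChains.d (Rep.trivial ℤ G ℤ) n).hom

end Pool.Agent.EUL
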