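import Pool.Agent.EUL.Brg
import Pool.Agent.EUL.Def

set_option autoImplicit false

open Finset

namespace Pool.Agent.EUL

lemma comp_bounds {g h : ℝ → ℝ} (hg : IsLift g) (hh : IsLift h) :
    0 ≤ g (h 0) ∧ g (h 0) < 2 := by
  constructor
  · exact le_trans hg.2.1 (hg.2.2.2.1.monotone hh.2.1)
  · have h1 : g (h 0) < g 1 := hg.2.2.2.1 hh.2.2.1
    have h2 : g 1 = g 0 + 1 := by
      have := hg.1 0
      rwa [zero_add] at this
    have := hg.2.2.1
    linarith

/-- the Euler cocycle -/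
noncomputable def circ : Dat DiffAn where
  χ g h := ⌊g.1 (h.1 0)⌋
  h01 g h := by
    obtain ⟨h1, h2⟩ := comp_bounds g.2 h.2
    have h3 : 0 ≤ ⌊g.1 (h.1 0)⌋ := Int.floor_nonneg.2 h1
    have h4 : ⌊g.1 (h.1 0)⌋ < 2 := Int.floor_lt.2 (by exact_mod_cast h2)
    omega
  coc g h l := by
    simp only [mul_val]
    rw [sub_int g.2, Int.floor_sub_intCast, Int.floor_sub_intCast]
    ring

lemma circ_χ (g h : DiffAn) : circ.χ g h = ⌊g.1 (h.1 0)⌋ := rfl

/-- rotation by `1/n` -/
lemma isLift_rot (n : ℕ) (hn : 2 ≤ n) : IsLift (fun x => x + 1 / (n : ℝ)) := by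
  have h0 : (2 : ℝ) ≤ n := by exact_mod_cast hn
  refine ⟨fun x => by ring, by positivity, ?_, ?_, ?_, ?_⟩
  · beta_reduce
    rw [zero_add, div_lt_one (by linarith)]; linarith
  · intro x y h; simpa using h
  · exact analyticOnNhd_id.add analyticOnNhd_const
  · intro x
    simp

/-- the rotation by `1/n` (for `n ≥ 2`) -/
noncomputable def rot (n : ℕ) : DiffAn := if h : 2 ≤ n then ⟨_, isLift_rot n h⟩ else 1

lemma rot_val (n : ℕ) (h : 2 ≤ n) : (rot n).1 = fun x => x + 1 / (n : ℝ) := by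
  simp [rot, h]

lemma floor_div (n j : ℕ) (hj : j < n) : ⌊(j : ℝ) / n⌋ = 0 := by
  rw [Int.floor_eq_zero_iff]
  have h0 : (0 : ℝ) < n := by exact_mod_cast (by omega : 0 < n)
  exact ⟨by positivity, by rw [div_lt_one h0]; exact_mod_cast hj⟩

lemma rot_pow (n : ℕ) (h : 2 ≤ n) (j : ℕ) (hj : j < n) :
    (rot n ^ j).1 = fun x => x + (j : ℝ) / n := by
  induction j with
  | zero => rw [pow_zero, one_val]; simp
  | succ j ih =>
    have h1 := ih (by omega)
    rw [pow_succ, mul_val, h1, rot_val n h]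
    funext x
    simp only
    have h2 : (0 : ℝ) + 1 / n + j / n = ((j + 1 : ℕ) : ℝ) / n := by push_cast; ring
    rw [h2, floor_div n (j + 1) hj]
    push_cast
    ring

lemma rot_pow_self (n : ℕ) (h : 2 ≤ n) : rot n ^ n = 1 := by
  obtain ⟨m, rfl⟩ : ∃ m, n = m + 1 := ⟨n - 1, by omega⟩
  apply DiffAn.ext
  rw [pow_succ, mul_val, rot_pow _ h m (by omega), rot_val _ h, one_val]
  funext x
  simp only
  have h0 : ((m + 1 : ℕ) : ℝ) ≠ 0 := by positivity
  have h2 : (0 : ℝ) + 1 / ((m + 1 : ℕ) : ℝ) + m / ((m + 1 : ℕ) : ℝ) = 1 := by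
    field_simp
    push_cast
    ring
  have h3 : x + 1 / ((m + 1 : ℕ) : ℝ) + m / ((m + 1 : ℕ) : ℝ) = x + 1 := by
    linarith
  rw [h2, h3]
  simp

lemma isLift_sec (n : ℕ) (hn : 0 < n) {g : ℝ → ℝ} (hg : IsLift g) :
    IsLift (fun x => g (n * x) / n) := by
  have h0 : (0 : ℝ) < n := by exact_mod_cast hn
  have h1 : (1 : ℝ) ≤ n := by exact_mod_cast hn
  refine ⟨?_, ?_, ?_, ?_, ?_, ?_⟩
  · intro x
    beta_reduce
    rw [mul_add, mul_one, add_nat hg]
    field_simp
  · beta_reduce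
    rw [mul_zero]; exact div_nonneg hg.2.1 h0.le
  · beta_reduce
    rw [mul_zero, div_lt_one h0]; linarith [hg.2.2.1]
  · intro x y hxy
    have : (n : ℝ) * x < n * y := by nlinarith
    exact (div_lt_div_iff_of_pos_right h0).2 (hg.2.2.2.1 this)
  · have h2 : AnalyticOnNhd ℝ (fun x : ℝ => (n : ℝ) * x) Set.univ :=
      analyticOnNhd_const.mul analyticOnNhd_id
    have h3 : AnalyticOnNhd ℝ (fun x => g (n * x)) Set.univ :=
      hg.2.2.2.2.1.comp h2 (fun x _ => Set.mem_univ _)
    exact h3.div_const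
  · intro x
    have dg : DifferentiableAt ℝ g (n * x) :=
      (hg.2.2.2.2.1 (n * x) (Set.mem_univ _)).differentiableAt
    have h2 : HasDerivAt (fun x : ℝ => (n : ℝ) * x) (n : ℝ) x := by
      simpa using (hasDerivAt_id x).const_mul (n : ℝ)
    have h3 : HasDerivAt (fun x => g (n * x)) (deriv g (n * x) * n) x :=
      dg.hasDerivAt.comp x h2
    rw [(h3.div_const _).deriv]
    have := hg.2.2.2.2.2 (n * x)
    positivity

/-- the lift to the `n`-fold covering -/
noncomputable def sec (n : ℕ) (g : DiffAn) : DiffAn :=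
  if h : 0 < n then ⟨_, isLift_sec n h g.2⟩ else 1

lemma sec_val (n : ℕ) (h : 0 < n) (g : DiffAn) : (sec n g).1 = fun x => g.1 (n * x) / n := by
  simp [sec, h]

lemma floor_zero_of {a : ℝ} (h0 : 0 ≤ a) (h1 : a < 1) : ⌊a⌋ = 0 := Int.floor_eq_zero_iff.2 ⟨h0, h1⟩

/-- relations between the lifts to the `n`-fold covering and the rotation by `1/n` -/
theorem rel_circ (n : ℕ) (hn : 2 ≤ n) : Rel circ n (rot n) (sec n) := by
  have hn0 : 0 < n := by omega
  have h2 : (2 : ℝ) ≤ n := by exact_mod_cast hn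
  have h0 : (0 : ℝ) < n := by linarith
  refine ⟨hn0, rot_pow_self n hn, ?_, ?_, ?_⟩
  · intro g
    apply DiffAn.ext
    rw [mul_val, mul_val, rot_val n hn, sec_val n hn0]
    funext x
    beta_reduce
    have e1 : (n : ℝ) * (x + 1 / n) = n * x + 1 := by field_simp
    have e2 : (n : ℝ) * (0 + 1 / n) = 0 + 1 := by
      rw [mul_add, mul_zero, mul_one_div_cancel h0.ne']
    have g0 := g.2.2.1
    have g1 := g.2.2.2.1
    rw [e1, e2, g.2.1, g.2.1, mul_zero,
      floor_zero_of (a := g.1 0 / n + 1 / n) (by positivity)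
        (by rw [← add_div, div_lt_one h0]; linarith),
      floor_zero_of (a := (g.1 0 + 1) / n) (by positivity) (by rw [div_lt_one h0]; linarith)]
    ring
  · intro g h hχ
    rw [circ_χ] at hχ
    apply DiffAn.ext
    rw [mul_val, sec_val n hn0, sec_val n hn0, sec_val n hn0, mul_val]
    funext x
    beta_reduce
    obtain ⟨b0, b1⟩ := comp_bounds g.2 h.2
    have e1 : (n : ℝ) * (h.1 (n * x) / n) = h.1 (n * x) := by field_simp
    have e2 : (n : ℝ) * (h.1 (n * 0) / n) = h.1 0 := by rw [mul_zero]; field_simp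
    rw [e1, e2, hχ, floor_zero_of (a := g.1 (h.1 0) / n) (by positivity)
      (by rw [div_lt_one h0]; linarith)]
    simp
  · intro g h hχ
    rw [circ_χ] at hχ
    apply DiffAn.ext
    rw [mul_val, mul_val, rot_val n hn, sec_val n hn0, sec_val n hn0, sec_val n hn0, mul_val]
    funext x
    beta_reduce
    obtain ⟨b0, b1⟩ := comp_bounds g.2 h.2
    have e1 : (n : ℝ) * (h.1 (n * x) / n) = h.1 (n * x) := by field_simp
    have e2 : (n : ℝ) * (h.1 (n * 0) / n) = h.1 0 := by rw [mul_zero]; field_simp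
    have e3 : (g.1 (h.1 (n * 0)) - ((1 : ℤ) : ℝ)) / n + 1 / n = g.1 (h.1 0) / n := by
      rw [mul_zero]; push_cast; ring
    rw [e1, e2, hχ, e3, floor_zero_of (a := g.1 (h.1 0) / n) (by positivity)
      (by rw [div_lt_one h0]; linarith)]
    push_cast
    ring

/-- the family of the circle -/
noncomputable def famCirc : Fam circ where
  c := rot
  σ := sec
  rel := rel_circ
  pw l m hl hm := by
    have hlm : 2 ≤ l * m := le_trans hl (Nat.le_mul_of_pos_right l hm)
    have hlt : m < l * m := by nlinarith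
    apply DiffAn.ext
    rw [rot_pow _ hlm m hlt, rot_val l hl]
    funext x
    have h1 : (l : ℝ) ≠ 0 := by positivity
    have h2 : (m : ℝ) ≠ 0 := by positivity
    push_cast
    field_simp
  val n hn j hj := by
    rw [circ_χ, rot_pow n hn j hj, rot_val n hn]
    beta_reduce
    have h0 : (0 : ℝ) + 1 / n + j / n = ((j + 1 : ℕ) : ℝ) / n := by push_cast; ring
    rw [h0]
    by_cases h : j + 1 = n
    · rw [if_pos h, h]
      have : (n : ℝ) ≠ 0 := by positivity
      rw [div_self this]; simp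
    · rw [if_neg h, floor_div n (j + 1) (by omega)]

end Pool.Agent.EUL
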