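import Pool.Agent.EUL.Key

set_option autoImplicit false

open Finset

namespace Pool.Agent.EUL

variable {M : Type*} [Monoid M]

/-- The standard cycle of degree `2k+1` of an element `c` with `c ^ n = 1`:
`Σ [c | c^{a₁} | c | c^{a₂} | … | c^{a_k} | c]`, the sum over all `a ∈ {0, …, n-1}^k`. -/
noncomputable def cyc (c : M) (n : ℕ) : ℕ → Ch M
  | 0 => Finsupp.single [c] 1
  | k + 1 => ∑ j ∈ range n, cn c (cn (c ^ j) (cyc c n k))

/-- The companion chain of degree `2k`. -/
noncomputable def evn (c : M) (n : ℕ) : ℕ → Ch M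
  | 0 => Finsupp.single [] 1
  | k + 1 => ∑ j ∈ range n, cn (c ^ j) (cyc c n k)

lemma cyc_eq (c : M) (n k : ℕ) : cyc c n k = cn c (evn c n k) := by
  cases k <;> simp [cyc, evn]

lemma od_nil (D : Dat M) (c : M) (n : ℕ) (σ : M → M) (k : ℕ) :
    od D n c σ k [] = cyc c n k ∧ ev D n c σ k [] = evn c n k := by
  induction k with
  | zero => rw [od, ev]; simp [cyc, evn]
  | succ k ih =>
    have h1 : ev D n c σ (k + 1) [] = evn c n (k + 1) := by
      rw [ev]; simp [evn, ih.1]
    rw [od, h1, cyc_eq]; simp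

lemma bar_cap (D : Dat M) (u : Ch M) : bar (cap D u) = cap D (bar u) := by
  have K : ∀ (g h : M) (v : Ch M), cap D (cn g (cn h v)) = D.χ g h • v := by
    intro g h v
    have := ext_words (f := (cap D).comp ((cn g).comp (cn h)))
      (g := D.χ g h • LinearMap.id) ?_ v
    · simpa using this
    · intro w; simp [capw]
  have := ext_words (f := bar.comp (cap D)) (g := (cap D).comp bar) ?_ u
  · simpa using this
  · intro w
    simp only [LinearMap.comp_apply, bar_single, cap_single]
    match w with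
    | [] => simp [capw, bdw]
    | [g] => simp [capw, bdw, rest]
    | [g, h] =>
      simp only [capw, bdw, rest, map_sub, map_smul, bar_single, cap_single, cn_single]
      simp
    | g :: h :: l :: w =>
      have hco := D.coc g h l
      simp only [capw, bdw, rest, map_sub, map_smul, bar_single, cap_single, cn_single, K]
      have h3 : D.χ h l = D.χ g h + D.χ (g * h) l - D.χ g (h * l) := by linarith
      rw [h3]
      module

section Relation

variable {c : M} {n : ℕ}

lemma R_evn_aux (hc : c ^ n = 1) (k : ℕ) :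
    (∀ x, R x (cyc c n k) = cn (x * c) (evn c n k) - cn x (evn c n k)) ∧
      R c (evn c n k) = evn c n k := by
  have A : ∀ k, R c (evn c n k) = evn c n k →
      ∀ x, R x (cyc c n k) = cn (x * c) (evn c n k) - cn x (evn c n k) := by
    intro k hk x
    rw [cyc_eq, R_cn, hk]
  have B : ∀ k, (∀ x, R x (cyc c n k) = cn (x * c) (evn c n k) - cn x (evn c n k)) →
      ∀ x, R x (evn c n (k + 1)) = ∑ j ∈ range n, cn (x * c ^ j) (cyc c n k) := by
    intro k hk x
    have h1 : ∑ j ∈ range n, R (c ^ j) (cyc c n k) = 0 := by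
      simp only [hk, ← pow_succ, Finset.sum_sub_distrib]
      rw [sum_shift hc (fun x => cn x (evn c n k)), sub_self]
    simp only [evn, map_sum, R_cn, Finset.sum_sub_distrib]
    rw [← map_sum, h1, map_zero, sub_zero]
  induction k with
  | zero =>
    have h0 : R c (evn c n 0) = evn c n 0 := by simp [evn, rest]
    exact ⟨A 0 h0, h0⟩
  | succ k ih =>
    have h1 : R c (evn c n (k + 1)) = evn c n (k + 1) := by
      rw [B k ih.1 c]
      simp only [← pow_succ']
      rw [sum_shift hc (fun x => cn x (cyc c n k))]; rfl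
    exact ⟨A _ h1, h1⟩

lemma R_cyc (hc : c ^ n = 1) (k : ℕ) (x : M) :
    R x (cyc c n k) = cn (x * c) (evn c n k) - cn x (evn c n k) := (R_evn_aux hc k).1 x

lemma R_c_evn (hc : c ^ n = 1) (k : ℕ) : R c (evn c n k) = evn c n k := (R_evn_aux hc k).2

lemma R_evn_succ (hc : c ^ n = 1) (k : ℕ) (x : M) :
    R x (evn c n (k + 1)) = ∑ j ∈ range n, cn (x * c ^ j) (cyc c n k) := by
  have h1 : ∑ j ∈ range n, R (c ^ j) (cyc c n k) = 0 := by
    simp only [R_cyc hc, ← pow_succ, Finset.sum_sub_distrib]
    rw [sum_shift hc (fun x => cn x (evn c n k)), sub_self]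
  simp only [evn, map_sum, R_cn, Finset.sum_sub_distrib]
  rw [← map_sum, h1, map_zero, sub_zero]

theorem bar_evn (hc : c ^ n = 1) (k : ℕ) : bar (evn c n (k + 1)) = (n : ℤ) • cyc c n k := by
  have h := congrArg dl (R_evn_succ hc k 1)
  rw [dl_R] at h
  rw [h]
  simp [dl_cn]

theorem bar_cyc (hc : c ^ n = 1) (k : ℕ) : bar (cyc c n k) = 0 := by
  have h := congrArg dl (R_cyc hc k 1)
  rw [dl_R] at h
  rw [h]
  simp [dl_cn]

end Relation

end Pool.Agent.EUL
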