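import Mathlib

set_option autoImplicit false

open CategoryTheory

/-!
The integral homology of a finite cyclic group in odd degrees is cyclic of the order of the group.
-/

namespace Pool.Agent.EUL

open Rep.FiniteCyclicGroup

theorem cyclic_H (C : Type) [CommGroup C] [Fintype C] [DecidableEq C] (g : C)
    (hg : ∀ x, x ∈ Subgroup.zpowers g) (k : ℕ) :
    ∃ h : groupHomology (Rep.trivial ℤ C ℤ) (2 * k + 1),
      (∀ x, ∃ a : ℤ, x = a • h) ∧ ∀ a : ℤ, a • h = 0 ↔ (Fintype.card C : ℤ) ∣ a := by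
  have hi : Odd (2 * k + 1) := ⟨k, rfl⟩
  let A : Rep ℤ C := Rep.trivial ℤ C ℤ
  have hker : ∀ y : A.V, y ∈ LinearMap.ker (Rep.applyAsHom A g - 𝟙 A).hom.toLinearMap := by
    intro y
    rw [LinearMap.mem_ker]
    simp [Rep.sub_hom, Rep.applyAsHom, A]
  have hsurj : Function.Surjective (groupHomologyπOdd A g hg (2 * k + 1) hi) := by
    have : Epi (groupHomologyπOdd A g hg (2 * k + 1) hi) := inferInstance
    exact (ModuleCat.epi_iff_surjective _).1 this
  have hnorm : ∀ y : A.V, A.ρ.norm y = (Fintype.card C : ℤ) • y := by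
    intro y
    simp [Representation.norm, A]
  refine ⟨groupHomologyπOdd A g hg (2 * k + 1) hi ⟨(1 : ℤ), hker _⟩, fun x => ?_, fun a => ?_⟩
  · obtain ⟨y, rfl⟩ := hsurj x
    refine ⟨(y.1 : ℤ), ?_⟩
    rw [← map_zsmul]
    congr 1
    apply Subtype.ext
    change y.1 = (y.1 : ℤ) • (1 : ℤ)
    simp
  · rw [← map_zsmul, groupHomologyπOdd_eq_zero_iff]
    constructor
    · rintro ⟨y, hy⟩
      rw [hnorm] at hy
      refine ⟨(y : ℤ), ?_⟩
      have : (Fintype.card C : ℤ) • (y : ℤ) = a • (1 : ℤ) := hy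
      simpa using this.symm
    · rintro ⟨b, hb⟩
      refine ⟨(b : ℤ), ?_⟩
      rw [hnorm]
      change (Fintype.card C : ℤ) • (b : ℤ) = a • (1 : ℤ)
      simp [hb]

end Pool.Agent.EUL
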