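import Mathlib

set_option autoImplicit false

open CategoryTheory

/-!
The integral homology of a finite cyclic group in even positive degrees is zero.
-/

namespace Pool.Agent.EUL

open Rep.FiniteCyclicGroup

theorem cyclic_H_even (C : Type) [CommGroup C] [Fintype C] [DecidableEq C] (g : C)
    (hg : ∀ x, x ∈ Subgroup.zpowers g) (k : ℕ) :
    ∀ x : groupHomology (Rep.trivial ℤ C ℤ) (2 * k + 2), x = 0 := by
  have hi : Even (2 * k + 2) := ⟨k + 1, by ring⟩
  have : NeZero (2 * k + 2) := ⟨by omega⟩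
  let A : Rep ℤ C := Rep.trivial ℤ C ℤ
  have hnorm : ∀ y : A.V, A.ρ.norm y = (Fintype.card C : ℤ) • y := by
    intro y
    simp [Representation.norm, A]
  have hsurj : Function.Surjective (groupHomologyπEven A g hg (2 * k + 2) hi) := by
    have e1 : Epi (ShortComplex.moduleCatCyclesIso (subCompNormHom A g)).inv :=
      (IsIso.epi_of_iso (ShortComplex.moduleCatCyclesIso (subCompNormHom A g)).inv)
    have e2 : Epi (groupHomologyIsoEven A g hg (2 * k + 2) hi).inv :=
      (IsIso.epi_of_iso (groupHomologyIsoEven A g hg (2 * k + 2) hi).inv)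
    have : Epi (groupHomologyπEven A g hg (2 * k + 2) hi) :=
      @epi_comp _ _ _ _ _ _ e1 _ (@epi_comp _ _ _ _ _ _ inferInstance _ e2)
    exact (ModuleCat.epi_iff_surjective _).1 this
  intro x
  obtain ⟨y, rfl⟩ := hsurj x
  have hy := y.2
  rw [LinearMap.mem_ker, hnorm] at hy
  have hc : (Fintype.card C : ℤ) ≠ 0 := by exact_mod_cast Fintype.card_ne_zero
  have h0 : (y.1 : ℤ) = 0 := by
    have h1 : (Fintype.card C : ℤ) * (y.1 : ℤ) = 0 := hy
    exact (mul_eq_zero.1 h1).resolve_left hc
  have h2 : y = 0 := Subtype.ext h0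
  rw [h2]
  exact map_zero (groupHomologyπEven A g hg (2 * k + 2) hi).hom

end Pool.Agent.EUL
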