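import Pool.Agent.EUL.Thm

set_option autoImplicit false

open Finset CategoryTheory

namespace Pool.Agent.EUL

lemma orderOf_rot (n : ℕ) (hn : 2 ≤ n) : orderOf (rot n) = n := by
  rw [orderOf_eq_iff (by omega)]
  refine ⟨rot_pow_self n hn, ?_⟩
  intro m hm hm0 h
  have h1 := rot_pow n hn m hm
  rw [h, one_val] at h1
  have h2 := congrFun h1 0
  beta_reduce at h2
  have h3 : (0 : ℝ) < (m : ℝ) / n := by
    have : (0 : ℝ) < m := by exact_mod_cast hm0
    have h4 : (0 : ℝ) < n := by exact_mod_cast (by omega : 0 < n)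
    positivity
  linarith

lemma val_rot (n : ℕ) (hn : 2 ≤ n) (j : ℕ) (hj : j < n) :
    circ.χ (rot n) (rot n ^ j) = if j + 1 = n then 1 else 0 := by
  rw [circ_χ, rot_pow n hn j hj, rot_val n hn]
  beta_reduce
  have h0 : (0 : ℝ) + j / n + 1 / n = ((j + 1 : ℕ) : ℝ) / n := by push_cast; ring
  rw [h0]
  by_cases h : j + 1 = n
  · rw [if_pos h, h]
    have : (n : ℝ) ≠ 0 := by positivity
    rw [div_self this]; simp
  · rw [if_neg h, floor_div n (j + 1) (by omega)]

lemma eulerValue_eq (k : ℕ) (x : (Fin (2 * k) → DiffAn) →₀ ℤ) :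
    eulerValue k x = eul circ k (toCh DiffAn (2 * k) x) := by
  classical
  induction x using Finsupp.induction_linear with
  | zero => simp [eulerValue]
  | add f g hf hg =>
    rw [map_add, map_add, ← hf, ← hg, eulerValue, Finsupp.sum_add_index']
    · rfl
    · intro a; simp
    · intro a b c; ring
  | single g a =>
    have h1 : (Finsupp.single g a : (Fin (2 * k) → DiffAn) →₀ ℤ) = a • Finsupp.single g 1 := by
      rw [Finsupp.smul_single, smul_eq_mul, mul_one]
    have h2 : List.ofFn g = wd (fun j => if h : j < 2 * k then g ⟨j, h⟩ else 1) (2 * k) := by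
      apply List.ext_getElem
      · simp
      · intro i h1 h2
        simp only [List.length_ofFn] at h1
        simp [wd, h1]
    rw [eulerValue, Finsupp.sum_single_index (by simp), h1, map_smul, map_smul, toCh_single, h2,
      eul_wd, smul_eq_mul, Finset.prod_range]
    congr 1
    refine Finset.prod_congr rfl ?_
    intro i _
    have hi := i.2
    rw [circ_χ, dif_pos (by omega), dif_pos (by omega)]

/-- Final form. -/
theorem final (k : ℕ) :
    (∀ n, 2 ≤ n → Nat.card (HG (Subgroup.zpowers (rot n)) (2 * k + 1)) = n) ∧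
    List.TFAE [
      ¬ EulerPowerZero (k + 1),
      mapG (Subgroup.zpowers (rot 2)).subtype (2 * k + 1) = 0,
      ∀ n, 2 ≤ n → mapG (Subgroup.zpowers (rot n)).subtype (2 * k + 1) = 0,
      ∃ n, 2 ≤ n ∧ ¬ Function.Injective (mapG (Subgroup.zpowers (rot n)).subtype (2 * k + 1)),
      ∃ x : (Fin (2 * (k + 1)) → DiffAn) →₀ ℤ, dG DiffAn (2 * k + 1) x = 0 ∧
        eulerValue (k + 1) x = 1] := by
  have D := fun n hn => map_dich circ (rot n) n hn (orderOf_rot n hn) (val_rot n hn) k
  refine ⟨fun n hn => (D n hn).2.2, ?_⟩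
  have hRC : EulerPowerZero (k + 1) ↔ RC circ (k + 1) := ⟨RC_of_frozen k, frozen_of_RC k⟩
  tfae_have 1 → 3 := by
    intro h n hn
    exact (D n hn).1.2 (bounds_of_not_RC famCirc k (fun h' => h (hRC.2 h')) n hn)
  tfae_have 3 → 2 := fun h => h 2 le_rfl
  tfae_have 2 → 1 := by
    intro h h'
    have h1 := (D 2 le_rfl).1.1 h
    refine not_RC_of_bounds famCirc k 2 1 one_pos one_lt_two ?_ (hRC.1 h')
    rw [Nat.cast_one, one_smul]
    exact h1
  tfae_have 3 → 4 := by
    intro h
    refine ⟨2, le_rfl, ?_⟩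
    intro hinj
    have h1 := (D 2 le_rfl).2.1.1 hinj 1 (by
      rw [one_smul]
      exact (D 2 le_rfl).1.1 (h 2 le_rfl))
    norm_num at h1
  tfae_have 4 → 1 := by
    rintro ⟨n, hn, hinj⟩ h'
    rw [(D n hn).2.1] at hinj
    push Not at hinj
    obtain ⟨a, ha, hna⟩ := hinj
    have hc : rot n ^ n = 1 := rot_pow_self n hn
    have hn0 : (0 : ℤ) < n := by omega
    have hm0 : 0 ≤ a % n := Int.emod_nonneg _ hn0.ne'
    have hmn : a % n < n := Int.emod_lt_of_pos _ hn0
    have hne : a % n ≠ 0 := fun h => hna (Int.dvd_of_emod_eq_zero h)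
    obtain ⟨W, hW⟩ := ha
    refine not_RC_of_bounds famCirc k n (a % n).toNat (by omega) (by omega) ?_ (hRC.1 h')
    refine ⟨W - (a / n) • evn (rot n) n (k + 1), ?_⟩
    change bar (W - (a / n) • evn (rot n) n (k + 1)) = (((a % n).toNat : ℕ) : ℤ) • cyc (rot n) n k
    have e1 : (((a % n).toNat : ℕ) : ℤ) = a % n := Int.toNat_of_nonneg hm0
    rw [map_sub, hW, map_smul, bar_evn hc, e1, smul_smul, ← sub_smul]
    congr 1
    have := Int.emod_add_mul_ediv a n
    linarith [mul_comm (a / n) (n : ℤ)]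
  tfae_have 1 → 5 := by
    intro h
    obtain ⟨x, hx, hx1⟩ := value_one famCirc k
      (fun l hl => bounds_of_not_RC famCirc k (fun h' => h (hRC.2 h')) l hl)
    obtain ⟨z, hz⟩ := exists_toCh (2 * (k + 1)) x
    refine ⟨z, ?_, ?_⟩
    · rw [ker_iff]
      show bar (toCh DiffAn (2 * (k + 1)) z) = 0
      rw [hz, show 2 * (k + 1) = (2 * k + 1) + 1 by ring, Pr_bar, hx, map_zero]
    · rw [eulerValue_eq, hz]
      rw [eul_apply, Pr_cap_iter, ← eul_apply, hx1]
      simp
  tfae_have 5 → 1 := by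
    rintro ⟨x, hx, hx1⟩ h'
    refine not_RC_of_value (k + 1) ⟨toCh DiffAn (2 * (k + 1)) x, (ker_iff _ _).1 hx, ?_⟩ (hRC.1 h')
    rw [← eulerValue_eq, hx1]
  tfae_finish

end Pool.Agent.EUL
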