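import Pool.Agent.EUL.Abs

set_option autoImplicit false

open Finset

namespace Pool.Agent.EUL

variable {M : Type} [Monoid M]

/-- chains with words indexed by `Fin n` as chains on lists -/
noncomputable def toCh (M : Type) (n : ℕ) : ((Fin n → M) →₀ ℤ) →ₗ[ℤ] Ch M :=
  Finsupp.lmapDomain ℤ ℤ List.ofFn

omit [Monoid M] in
@[simp] lemma toCh_single (n : ℕ) (g : Fin n → M) (a : ℤ) :
    toCh M n (Finsupp.single g a) = Finsupp.single (List.ofFn g) a := by
  simp [toCh, Finsupp.lmapDomain_apply, Finsupp.mapDomain_single]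

omit [Monoid M] in
lemma toCh_inj (n : ℕ) : Function.Injective (toCh M n) := by
  exact Finsupp.mapDomain_injective List.ofFn_injective

lemma contract_zero (n : ℕ) (g : Fin (n + 2) → M) :
    List.ofFn (Fin.contractNth 0 (· * ·) g)
      = (g 0 * g 1) :: List.ofFn (fun i : Fin n => g i.succ.succ) := by
  rw [List.ofFn_succ]
  congr 1

lemma contract_succ (n : ℕ) (g : Fin (n + 2) → M) (j : Fin (n + 1)) :
    List.ofFn (Fin.contractNth j.succ (· * ·) g)
      = g 0 :: List.ofFn (Fin.contractNth j (· * ·) (fun i => g i.succ)) := by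
  rw [List.ofFn_succ]
  congr 1
  congr 1
  funext i
  simp [Fin.contractNth]

lemma rest_ofFn (n : ℕ) : ∀ g : Fin (n + 1) → M,
    rest (g 0) (List.ofFn (fun i : Fin n => g i.succ))
      = ∑ j : Fin (n + 1), (-1 : ℤ) ^ (j : ℕ) •
          Finsupp.single (List.ofFn (Fin.contractNth j (· * ·) g)) (1 : ℤ) := by
  induction n with
  | zero =>
    intro g
    simp [rest]
  | succ n ih =>
    intro g
    rw [List.ofFn_succ, rest, Fin.sum_univ_succ, contract_zero]
    have h := ih (fun i => g i.succ)
    rw [h, map_sum]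
    simp only [contract_succ, map_smul, cn_single, Fin.val_zero, pow_zero, one_smul, Fin.val_succ]
    rw [sub_eq_add_neg, ← Finset.sum_neg_distrib]
    congr 1
    refine Finset.sum_congr rfl ?_
    intro j _
    rw [pow_succ, mul_neg_one, neg_smul]

lemma bdw_ofFn (n : ℕ) (g : Fin (n + 1) → M) :
    bdw (List.ofFn g) = Finsupp.single (List.ofFn (fun i : Fin n => g i.succ)) (1 : ℤ)
      + ∑ j : Fin (n + 1), (-1 : ℤ) ^ ((j : ℕ) + 1) •
          Finsupp.single (List.ofFn (Fin.contractNth j (· * ·) g)) (1 : ℤ) := by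
  rw [List.ofFn_succ, bdw, rest_ofFn, sub_eq_add_neg, ← Finset.sum_neg_distrib]
  congr 1
  refine Finset.sum_congr rfl ?_
  intro j _
  rw [pow_succ, mul_neg_one, neg_smul]

omit [Monoid M] in
lemma exists_toCh (n : ℕ) (u : Ch M) : ∃ z, toCh M n z = Pr n u := by
  induction u using Finsupp.induction_linear with
  | zero => exact ⟨0, by simp⟩
  | add f g hf hg =>
    obtain ⟨z, hz⟩ := hf
    obtain ⟨w, hw⟩ := hg
    exact ⟨z + w, by simp [hz, hw]⟩
  | single w a =>
    have h1 : (Finsupp.single w a : Ch M) = a • Finsupp.single w 1 := by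
      rw [Finsupp.smul_single, smul_eq_mul, mul_one]
    rw [h1, map_smul, Pr_single]
    by_cases h : w.length = n
    · subst h
      refine ⟨a • Finsupp.single (fun i => w.get i) 1, ?_⟩
      rw [map_smul, toCh_single, List.ofFn_get]
      simp
    · exact ⟨0, by simp [h]⟩

omit [Monoid M] in
lemma Pr_toCh (n : ℕ) (z : (Fin n → M) →₀ ℤ) : Pr n (toCh M n z) = toCh M n z := by
  induction z using Finsupp.induction_linear with
  | zero => simp
  | add f g hf hg => simp [hf, hg]
  | single w a =>
    have h1 : (Finsupp.single w a : (Fin n → M) →₀ ℤ) = a • Finsupp.single w 1 := by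
      rw [Finsupp.smul_single, smul_eq_mul, mul_one]
    rw [h1, map_smul, map_smul, toCh_single, Pr_single]
    simp

end Pool.Agent.EUL
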