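import Pool.Agent.EUL.Circ

set_option autoImplicit false

open Finset

namespace Pool.Agent.EUL

lemma mg_val (G : ℕ → DiffAn) (i j : ℕ) :
    (mg G i j).1 = if j < i then (G j).1 else if j = i then
      (fun x => (G i).1 ((G (i + 1)).1 x) - ((⌊(G i).1 ((G (i + 1)).1 0)⌋ : ℤ) : ℝ))
      else (G (j + 1)).1 := by
  unfold mg
  split_ifs <;> rfl

lemma getD_wd (G : ℕ → DiffAn) (N j : ℕ) (hj : j < N) : (wd G N).getD j 1 = G j := by
  simp [wd, List.getD_eq_getElem, hj]

/-- the frozen form gives the form on chains -/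
lemma RC_of_frozen (k : ℕ) (h : EulerPowerZero (k + 1)) : RC circ (k + 1) := by
  obtain ⟨φ, hφ⟩ := h
  let ψ : List DiffAn → ℚ := fun w =>
    if w.length = 2 * k + 1 then φ (fun j => (w.getD j.val 1).1) else 0
  refine ⟨ψ, ?_⟩
  intro u
  have := ext_words (f := (Int.castAddHom ℚ).toIntLinearMap.comp (eul circ (k + 1)))
    (g := (lin ψ).comp bar) ?_ u
  · simpa using this
  · intro w
    simp only [LinearMap.comp_apply, bar_single]
    by_cases hw : w.length = 2 * (k + 1)
    · set G : ℕ → DiffAn := fun j => w.getD j 1 with hG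
      have hwd : w = wd G (2 * (k + 1)) := by rw [← hw]; exact eq_wd w
      have h1 := hφ (fun j => (G j).1) (fun j _ => (G j).2)
      rw [hwd, eul_wd]
      have e : 2 * (k + 1) = (2 * k + 1) + 1 := by ring
      have h2 : lin ψ (bdw (wd G (2 * (k + 1))))
          = ψ (wd (fun j => G (j + 1)) (2 * k + 1))
      + ∑ i ∈ range (2 * k + 1), (-1) ^ (i + 1) * ψ (wd (mg G i) (2 * k + 1))
      + (-1) ^ (2 * k + 1 + 1) * ψ (wd G (2 * k + 1)) := by
        rw [e]; exact lin_bdw (2 * k + 1) G ψ
      rw [h2]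
      have h3 : ∀ G' : ℕ → DiffAn, ψ (wd G' (2 * k + 1)) = φ (fun j => (G' j.val).1) := by
        intro G'
        simp only [ψ, wd_length, if_true]
        congr 1
        funext j
        exact congrArg DiffAn.val (getD_wd G' (2 * k + 1) j.1 j.2)
      rw [h3, h3, Finset.sum_range]
      simp only [h3, mg_val]
      have h4 : (∏ i ∈ Finset.range (k + 1), (((⌊(G (2 * i)).1 ((G (2 * i + 1)).1 0)⌋ : ℤ) : ℚ)))
          = (((∏ i ∈ range (k + 1), circ.χ (G (2 * i)) (G (2 * i + 1)) : ℤ)) : ℚ) := by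
        push_cast
        rfl
      simp only [AddMonoidHom.coe_toIntLinearMap, Int.coe_castAddHom]
      rw [← h4]
      exact h1
    · rw [eul_wrong _ _ _ hw, lin_wrong (2 * k + 1) ψ]
      · simp
      · intro v hv
        simp only [ψ, if_neg hv]
      · intro hc; apply hw; rw [hc]; ring

/-- the form on chains gives the frozen form -/
lemma frozen_of_RC (k : ℕ) (h : RC circ (k + 1)) : EulerPowerZero (k + 1) := by
  classical
  obtain ⟨ψ, hψ⟩ := h
  refine ⟨fun f => if hf : ∀ j, IsLift (f j) then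
    ψ (List.ofFn (fun j : Fin (2 * k + 1) => (⟨f j, hf j⟩ : DiffAn))) else 0, ?_⟩
  intro g hg
  let G : ℕ → DiffAn := fun j => if hj : IsLift (g j) then ⟨g j, hj⟩ else 1
  have hG : ∀ j, j < 2 * (k + 1) → (G j).1 = g j := by
    intro j hj
    have : IsLift (g j) := hg j hj
    simp [G, this]
  have h1 := hψ (Finsupp.single (wd G (2 * (k + 1))) 1)
  rw [eul_wd, bar_single] at h1
  have e : 2 * (k + 1) = (2 * k + 1) + 1 := by ring
  have h2 : lin ψ (bdw (wd G (2 * (k + 1))))
      = ψ (wd (fun j => G (j + 1)) (2 * k + 1))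
      + ∑ i ∈ range (2 * k + 1), (-1) ^ (i + 1) * ψ (wd (mg G i) (2 * k + 1))
      + (-1) ^ (2 * k + 1 + 1) * ψ (wd G (2 * k + 1)) := by
    rw [e]; exact lin_bdw (2 * k + 1) G ψ
  rw [h2] at h1
  have h3 : ∀ (G' : ℕ → DiffAn) (f : Fin (2 * k + 1) → ℝ → ℝ), (∀ j : Fin (2 * k + 1), (G' j).1 = f j) →
      (if hf : ∀ j, IsLift (f j) then
        ψ (List.ofFn (fun j : Fin (2 * k + 1) => (⟨f j, hf j⟩ : DiffAn))) else 0)
      = ψ (wd G' (2 * k + 1)) := by
    intro G' f hf
    have hf' : ∀ j, IsLift (f j) := fun j => by rw [← hf j]; exact (G' j).2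
    rw [dif_pos hf']
    congr 1
    apply List.ext_getElem
    · rw [List.length_ofFn, wd_length]
    · intro i h1 h2
      rw [List.getElem_ofFn]
      simp only [wd, List.getElem_map, List.getElem_range]
      apply DiffAn.ext
      simp only [wd_length] at h2
      exact (hf ⟨i, h2⟩).symm
  have h4 : (∏ i ∈ Finset.range (k + 1), (((⌊g (2 * i) (g (2 * i + 1) 0)⌋ : ℤ) : ℚ)))
      = (((∏ i ∈ range (k + 1), circ.χ (G (2 * i)) (G (2 * i + 1)) : ℤ)) : ℚ) := by
    push_cast
    refine Finset.prod_congr rfl ?_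
    intro i hi
    rw [mem_range] at hi
    rw [circ_χ, hG _ (by omega), hG _ (by omega)]
  rw [h4, h1]
  rw [Finset.sum_range]
  have E1 := h3 (fun j => G (j + 1)) (fun j => g (j.val + 1)) (fun j => hG _ (by have := j.2; omega))
  have E2 := h3 G (fun j => g j.val) (fun j => hG _ (by have := j.2; omega))
  have E3 : ∀ i : Fin (2 * k + 1), _ = ψ (wd (mg G i) (2 * k + 1)) := fun i =>
    h3 (mg G i) (fun j => if j.val < i.val then g j.val
                else if j.val = i.val then
                  (fun x => g i.val (g (i.val + 1) x) - ((⌊g i.val (g (i.val + 1) 0)⌋ : ℤ) : ℝ))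
                else g (j.val + 1)) (by
      intro j
      rw [mg_val, hG i (by have := i.2; omega), hG (i + 1) (by have := i.2; omega),
        hG j (by have := j.2; omega), hG (j + 1) (by have := j.2; omega)])
  simp only [← E3]
  rw [← E1, ← E2]
  rfl

end Pool.Agent.EUL
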