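import Pool.Agent.EUL.Def

set_option autoImplicit false

open CategoryTheory

/-!
Classes of inhomogeneous cycles with trivial integral coefficients.
-/

namespace Pool.Agent.EUL

/-- Mathlib's complex of inhomogeneous chains -/
noncomputable abbrev KG (G : Type) [Group G] : ChainComplex (ModuleCat ℤ) ℕ :=
  groupHomology.inhomogeneousChains (Rep.trivial ℤ G ℤ)

theorem KG_d (G : Type) [Group G] (n : ℕ) :
    (KG G).d (n + 1) n = groupHomology.inhomogeneousChains.d (Rep.trivial ℤ G ℤ) n :=
  groupHomology.inhomogeneousChains.d_def (Rep.trivial ℤ G ℤ) n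

/-- the inclusion of the cycles into the chains -/
noncomputable def inc (G : Type) [Group G] (n : ℕ) :
    ModuleCat.of ℤ (LinearMap.ker (dG G n)) ⟶ (KG G).X (n + 1) :=
  ModuleCat.ofHom (LinearMap.ker (dG G n)).subtype

theorem inc_d (G : Type) [Group G] (n : ℕ) : inc G n ≫ (KG G).d (n + 1) n = 0 := by
  rw [KG_d]
  apply ModuleCat.hom_ext
  apply LinearMap.ext
  intro z
  exact z.2

/-- cycles as elements of the categorical object of cycles -/
noncomputable def lft (G : Type) [Group G] (n : ℕ) :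
    ModuleCat.of ℤ (LinearMap.ker (dG G n)) ⟶ (KG G).cycles (n + 1) :=
  (KG G).liftCycles (inc G n) n (by simp) (inc_d G n)

theorem lft_i (G : Type) [Group G] (n : ℕ) : lft G n ≫ (KG G).iCycles (n + 1) = inc G n :=
  (KG G).liftCycles_i _ _ _ _

/-- the class of a cycle -/
noncomputable def cls (G : Type) [Group G] (n : ℕ) : LinearMap.ker (dG G n) →ₗ[ℤ] HG G (n + 1) :=
  (lft G n ≫ (KG G).homologyπ (n + 1)).hom

theorem iCycles_inj (G : Type) [Group G] (n : ℕ) :
    Function.Injective ((KG G).iCycles n) :=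
  (ModuleCat.mono_iff_injective _).1 inferInstance

theorem cls_surjective (G : Type) [Group G] (n : ℕ) : Function.Surjective (cls G n) := by
  intro x
  obtain ⟨y, rfl⟩ := (ModuleCat.epi_iff_surjective ((KG G).homologyπ (n + 1))).1 inferInstance x
  have h0 : (KG G).iCycles (n + 1) ≫ (KG G).d (n + 1) n = 0 := (KG G).iCycles_d _ _
  have h1 : ((KG G).iCycles (n + 1)) y ∈ LinearMap.ker (dG G n) := by
    rw [KG_d] at h0
    have := congrArg (fun m => m.hom y) h0
    simpa using this
  refine ⟨⟨_, h1⟩, ?_⟩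
  have h2 : (lft G n) ⟨_, h1⟩ = y := by
    apply iCycles_inj G (n + 1)
    have := congrArg (fun m => m.hom ⟨_, h1⟩) (lft_i G n)
    simpa [inc] using this
  change ((KG G).homologyπ (n + 1)) ((lft G n) ⟨_, h1⟩) = _
  rw [h2]

theorem cls_eq_zero_iff (G : Type) [Group G] (n : ℕ) (z : LinearMap.ker (dG G n)) :
    cls G n z = 0 ↔ ∃ w, dG G (n + 1) w = z.1 := by
  have hT : (KG G).toCycles (n + 2) (n + 1) ≫ (KG G).homologyπ (n + 1) = 0 :=
    (KG G).toCycles_comp_homologyπ _ _
  let S : ShortComplex (ModuleCat ℤ) := ShortComplex.mk _ _ hT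
  have hS : S.Exact := S.exact_of_g_is_cokernel ((KG G).homologyIsCokernel (n + 2) (n + 1)
    (by simp))
  rw [ShortComplex.moduleCat_exact_iff] at hS
  have hi : ∀ w, ((KG G).iCycles (n + 1)) (((KG G).toCycles (n + 2) (n + 1)) w) =
      dG G (n + 1) w := by
    intro w
    have h := (KG G).toCycles_i (n + 2) (n + 1)
    rw [KG_d G (n + 1)] at h
    exact congrArg (fun m => m.hom w) h
  have hl : ((KG G).iCycles (n + 1)) ((lft G n) z) = z.1 := by
    have := congrArg (fun m => m.hom z) (lft_i G n)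
    simpa [inc] using this
  constructor
  · intro h
    obtain ⟨w, hw⟩ := hS ((lft G n) z) h
    refine ⟨w, ?_⟩
    rw [← hi w, ← hl]
    exact congrArg _ hw
  · rintro ⟨w, hw⟩
    have h1 : ((KG G).toCycles (n + 2) (n + 1)) w = (lft G n) z := by
      apply iCycles_inj G (n + 1)
      rw [hi, hl]
      exact hw
    change ((KG G).homologyπ (n + 1)) ((lft G n) z) = 0
    rw [← h1]
    exact congrArg (fun m => m.hom w) hT

theorem map_cls {G H : Type} [Group G] [Group H] (f : G →* H) (n : ℕ)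
    (z : LinearMap.ker (dG G n)) (y : LinearMap.ker (dG H n))
    (h : y.1 = Finsupp.mapDomain (fun x => f ∘ x) z.1) :
    mapG f (n + 1) (cls G n z) = cls H n y := by
  have h1 : (groupHomology.cyclesMap (A := Rep.trivial ℤ G ℤ) (B := Rep.trivial ℤ H ℤ) f (𝟙 _)
      (n + 1)) ((lft G n) z) = (lft H n) y := by
    apply iCycles_inj H (n + 1)
    have e1 : ((KG H).iCycles (n + 1)) ((lft H n) y) = y.1 := by
      have := congrArg (fun m => m.hom y) (lft_i H n)
      simpa [inc] using this
    have e2 : ((KG G).iCycles (n + 1)) ((lft G n) z) = z.1 := by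
      have := congrArg (fun m => m.hom z) (lft_i G n)
      simpa [inc] using this
    have e3 := HomologicalComplex.cyclesMap_i (groupHomology.chainsMap
      (A := Rep.trivial ℤ G ℤ) (B := Rep.trivial ℤ H ℤ) f (𝟙 _)) (n + 1)
    have e4 := congrArg (fun m => m.hom ((lft G n) z)) e3
    rw [e1, h]
    refine Eq.trans e4 ?_
    change ((groupHomology.chainsMap (A := Rep.trivial ℤ G ℤ) (B := Rep.trivial ℤ H ℤ) f
      (𝟙 _)).f (n + 1)) (((KG G).iCycles (n + 1)) ((lft G n) z)) = _
    rw [e2]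
    rw [groupHomology.chainsMap_f]
    apply Finsupp.ext
    intro a
    change (Finsupp.mapRange (Rep.Hom.hom (𝟙 (Rep.trivial ℤ G ℤ))).toLinearMap (map_zero _)
      (Finsupp.mapDomain (fun x => ⇑f ∘ x) z.1)) a = _
    rw [Finsupp.mapRange_apply]
    rfl
  have h2 := groupHomology.π_map (A := Rep.trivial ℤ G ℤ) (B := Rep.trivial ℤ H ℤ) f (𝟙 _) (n + 1)
  have h3 := congrArg (fun m => m.hom ((lft G n) z)) h2
  change (groupHomology.map (A := Rep.trivial ℤ G ℤ) (B := Rep.trivial ℤ H ℤ) f (𝟙 _) (n + 1))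
    (((KG G).homologyπ (n + 1)) ((lft G n) z)) = ((KG H).homologyπ (n + 1)) ((lft H n) y)
  rw [← h1]
  exact h3

end Pool.Agent.EUL
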