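import Pool.Agent.EUL.Abs

set_option autoImplicit false

open Finset

namespace Pool.Agent.EUL

variable {M : Type*} [Monoid M] {D : Dat M}

/-- If all standard cycles bound then the power of the cocycle takes the value one on an
integral cycle. -/
theorem value_one (F : Fam D) (k : ℕ) (h : ∀ l, 2 ≤ l → Bounds (cyc (F.c l) l k)) :
    ∃ x : Ch M, bar x = 0 ∧ eul D (k + 1) x = 1 := by
  have key : ∀ n : ℕ, 2 ≤ n → ∃ (x : Ch M) (e : ℤ), bar x = 0 ∧ eul D (k + 1) x = n * e - 1 := by
    intro n hn
    obtain ⟨V, hV⟩ := h n hn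
    have hc := (F.rel n hn).hc
    refine ⟨(n : ℤ) • V - evn (F.c n) n (k + 1), eul D (k + 1) V, ?_, ?_⟩
    · rw [map_sub, map_smul, hV, bar_evn hc, sub_self]
    · rw [map_sub, map_smul, eul_evn F n hn, smul_eq_mul]
  obtain ⟨x, e, hx, hxe⟩ := key 2 le_rfl
  set a := eul D (k + 1) x with ha
  have hodd : a ≠ 0 := by
    intro h0
    rw [h0] at hxe
    push_cast at hxe
    omega
  by_cases h1 : a.natAbs = 1
  · rcases Int.natAbs_eq a with h2 | h2
    · exact ⟨x, hx, by rw [← ha, h2, h1]; rfl⟩
    · refine ⟨-x, by rw [map_neg, hx, neg_zero], ?_⟩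
      rw [map_neg, ← ha, h2, h1]; rfl
  · have h2 : 2 ≤ a.natAbs := by omega
    obtain ⟨y, f, hy, hyf⟩ := key a.natAbs h2
    rcases Int.natAbs_eq a with h3 | h3
    · refine ⟨f • x - y, by rw [map_sub, map_smul, hx, hy, smul_zero, sub_zero], ?_⟩
      rw [map_sub, map_smul, ← ha, hyf, smul_eq_mul, ← h3]
      ring
    · refine ⟨-(f • x) - y, by
        rw [map_sub, map_neg, map_smul, hx, hy, smul_zero, neg_zero, sub_zero], ?_⟩
      have h4 : ((a.natAbs : ℕ) : ℤ) = -a := by omega
      rw [map_sub, map_neg, map_smul, ← ha, hyf, smul_eq_mul, h4]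
      ring

/-- If the power of the cocycle does not vanish on some cycle then it is not a coboundary. -/
lemma not_RC_of_value (k : ℕ) (h : ∃ x : Ch M, bar x = 0 ∧ eul D k x = 1) : ¬ RC D k := by
  rintro ⟨φ, hφ⟩
  obtain ⟨x, hx, h1⟩ := h
  have := hφ x
  rw [hx, h1, map_zero] at this
  norm_num at this

/-- degree-one functional -/
noncomputable def theta {A : Type*} [AddCommGroup A] (e : M → A) : Ch M →ₗ[ℤ] A :=
  Finsupp.linearCombination ℤ (fun w => match w with
    | [g] => e g
    | _ => 0)

omit [Monoid M] in
lemma theta_single {A : Type*} [AddCommGroup A] (e : M → A) (g : M) :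
    theta e (Finsupp.single [g] 1) = e g := by
  simp [theta]

omit [Monoid M] in
lemma theta_Pr {A : Type*} [AddCommGroup A] (e : M → A) (u : Ch M) :
    theta e (Pr 1 u) = theta e u := by
  have := ext_words (f := (theta e).comp (Pr 1)) (g := theta e) ?_ u
  · simpa using this
  · intro w
    match w with
    | [] => simp [theta]
    | [g] => simp
    | g :: h :: w => simp [theta]

lemma theta_bar {A : Type*} [AddCommGroup A] (e : M → A) (he : ∀ g h, e (g * h) = e g + e h)
    (u : Ch M) : theta e (bar u) = 0 := by
  rw [← theta_Pr, ← Pr_bar]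
  have := ext_words (f := (theta e).comp (bar.comp (Pr 2))) (g := 0) ?_ u
  · simpa using this
  · intro w
    by_cases hw : w.length = 2
    · match w, hw with
      | [g, h], _ => simp [bdw, rest, theta, he]
    · simp [hw]

/-- In a finite cyclic group with a cocycle like the one of the rotations, a multiple of the
standard cycle bounds only if the multiplier is divisible by the order. -/
theorem dvd_of_bounds {n : ℕ} (hn : 2 ≤ n) (c : M)
    (hv : ∀ j < n, D.χ c (c ^ j) = if j + 1 = n then 1 else 0)
    (e : M → ZMod n) (he : ∀ g h, e (g * h) = e g + e h) (hc : e c = 1) (k : ℕ) (m : ℤ)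
    (hb : Bounds (m • cyc c n k)) : (n : ℤ) ∣ m := by
  obtain ⟨W, hW⟩ := hb
  have h1 : ∀ k, (cap D)^[k] (cyc c n k) = Finsupp.single [c] 1 := by
    intro k
    induction k with
    | zero => rfl
    | succ k ih =>
      rw [Function.iterate_succ_apply]
      have h2 : cap D (cyc c n (k + 1)) = cyc c n k := by
        have h0 : cap D (cyc c n (k + 1)) = ∑ j ∈ range n, D.χ c (c ^ j) • cyc c n k := by
          rw [cyc, map_sum]
          refine Finset.sum_congr rfl ?_
          intro j _
          rw [cap_cn_cn]
        rw [h0]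
        have h1 : ∀ j ∈ range n, D.χ c (c ^ j) • cyc c n k = if j = n - 1 then cyc c n k else 0 := by
          intro j hj
          rw [hv j (mem_range.1 hj)]
          by_cases h : j = n - 1
          · have : j + 1 = n := by omega
            simp [h]; omega
          · have : ¬ (j + 1 = n) := by omega
            simp [h, this]
        rw [Finset.sum_congr rfl h1, Finset.sum_ite_eq']
        simp; omega
      rw [h2, ih]
  have h2 : ∀ k (u : Ch M), (cap D)^[k] (bar u) = bar ((cap D)^[k] u) := by
    intro k
    induction k with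
    | zero => intro u; rfl
    | succ k ih =>
      intro u
      rw [Function.iterate_succ_apply, Function.iterate_succ_apply, ← bar_cap, ih]
  have h3 : (cap D)^[k] (m • cyc c n k) = m • Finsupp.single [c] 1 := by
    rw [← Module.End.pow_apply, map_smul, Module.End.pow_apply, h1]
  have h4 : theta e ((cap D)^[k] (m • cyc c n k)) = 0 := by
    rw [← hW, h2, theta_bar e he]
  rw [h3, map_smul, theta_single, hc] at h4
  rw [← ZMod.intCast_zmod_eq_zero_iff_dvd]
  simpa using h4

end Pool.Agent.EUL
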