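import Pool.Agent.EUL.Fn
import Pool.Agent.EUL.Val
import Pool.Agent.EUL.Pi
import Pool.Agent.EUL.Cyclic

set_option autoImplicit false
open Finset CategoryTheory
namespace Pool.Agent.EUL
variable {G : Type} [Group G]

lemma dG_single (n : ℕ) (g : Fin (n + 1) → G) (a : ℤ) :
    dG G n (Finsupp.single g a) = Finsupp.single (fun i => g i.succ) a
      + ∑ j : Fin (n + 1), (-1 : ℤ) ^ ((j : ℕ) + 1) •
          Finsupp.single (Fin.contractNth j (· * ·) g) a := by
  have := groupHomology.inhomogeneousChains.d_single (A := Rep.trivial ℤ G ℤ) n g a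
  exact this

lemma toCh_dG (n : ℕ) (z : (Fin (n + 1) → G) →₀ ℤ) :
    toCh G n (dG G n z) = bar (toCh G (n + 1) z) := by
  induction z using Finsupp.induction_linear with
  | zero => simp
  | add f g hf hg => simp only [map_add, hf, hg]
  | single g a =>
    have h1 : (Finsupp.single g a : (Fin (n + 1) → G) →₀ ℤ) = a • Finsupp.single g 1 := by
      rw [Finsupp.smul_single, smul_eq_mul, mul_one]
    rw [h1, map_smul, map_smul, map_smul, map_smul, dG_single, toCh_single, bar_single, bdw_ofFn,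
      map_add, map_sum, toCh_single]
    simp only [map_smul, toCh_single]

lemma bounds_iff (n : ℕ) (z : (Fin n → G) →₀ ℤ) :
    Bounds (toCh G n z) ↔ ∃ w, dG G n w = z := by
  constructor
  · rintro ⟨W, hW⟩
    obtain ⟨w, hw⟩ := exists_toCh (n + 1) W
    refine ⟨w, toCh_inj n ?_⟩
    rw [toCh_dG, hw, Pr_bar, hW, Pr_toCh]
  · rintro ⟨w, rfl⟩
    exact ⟨toCh G (n + 1) w, (toCh_dG n w).symm⟩

lemma ker_iff (n : ℕ) (z : (Fin (n + 1) → G) →₀ ℤ) :
    dG G n z = 0 ↔ bar (toCh G (n + 1) z) = 0 := by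
  rw [← toCh_dG, ← map_zero (toCh G n), (toCh_inj n).eq_iff]

omit [Group G] in
lemma Pr_cyc {M : Type} [Monoid M] (c : M) (n k : ℕ) :
    Pr (2 * k + 1) (cyc c n k) = cyc c n k := by
  induction k with
  | zero => simp [cyc]
  | succ k ih =>
    rw [cyc, map_sum]
    refine Finset.sum_congr rfl ?_
    intro j _
    have e : 2 * (k + 1) + 1 = (2 * k + 1) + 1 + 1 := by ring
    rw [e, Pr_cn, Pr_cn, ih]

/-- the standard cycle as a chain of Mathlib's complex -/
lemma exists_std (c : G) (n k : ℕ) (hc : c ^ n = 1) :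
    ∃ z : LinearMap.ker (dG G (2 * k)), toCh G (2 * k + 1) z.1 = cyc c n k := by
  obtain ⟨z, hz⟩ := exists_toCh (2 * k + 1) (cyc c n k)
  rw [Pr_cyc] at hz
  refine ⟨⟨z, ?_⟩, hz⟩
  rw [LinearMap.mem_ker, ker_iff, hz, bar_cyc hc]

lemma map_cyc {M N : Type} [Monoid M] [Monoid N] (f : M →* N) (c : M) (n k : ℕ) :
    Finsupp.lmapDomain ℤ ℤ (List.map f) (cyc c n k) = cyc (f c) n k := by
  have h : ∀ (x : M) (u : Ch M), Finsupp.lmapDomain ℤ ℤ (List.map f) (cn x u)
      = cn (f x) (Finsupp.lmapDomain ℤ ℤ (List.map f) u) := by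
    intro x u
    have := ext_words (f := (Finsupp.lmapDomain ℤ ℤ (List.map f)).comp (cn x))
      (g := (cn (f x)).comp (Finsupp.lmapDomain ℤ ℤ (List.map f))) ?_ u
    · simpa using this
    · intro w
      simp only [LinearMap.comp_apply, cn_single, Finsupp.lmapDomain_apply,
        Finsupp.mapDomain_single, List.map_cons]
  induction k with
  | zero => simp [cyc, Finsupp.lmapDomain_apply, Finsupp.mapDomain_single]
  | succ k ih =>
    rw [cyc, cyc, map_sum]
    refine Finset.sum_congr rfl ?_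
    intro j _
    rw [h, h, ih, map_pow]

lemma toCh_map {M N : Type} (f : M → N) (n : ℕ) (z : (Fin n → M) →₀ ℤ) :
    toCh N n (Finsupp.mapDomain (fun x => f ∘ x) z)
      = Finsupp.lmapDomain ℤ ℤ (List.map f) (toCh M n z) := by
  simp only [toCh, Finsupp.lmapDomain_apply, ← Finsupp.mapDomain_comp]
  congr 1
  funext x
  simp [List.map_ofFn]


/-- pulling back the data along a homomorphism -/
def Dat.comap {M N : Type} [Monoid M] [Monoid N] (D : Dat N) (f : M →* N) : Dat M where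
  χ g h := D.χ (f g) (f h)
  h01 g h := D.h01 _ _
  coc g h l := by
    simp only [map_mul]
    exact D.coc _ _ _

/-- The homology of the cyclic group generated by `c` is generated by the standard class, whose
order is `n`. -/
theorem std_generates (D : Dat G) (c : G) (n : ℕ) (hn : 2 ≤ n) (ho : orderOf c = n)
    (hv : ∀ j < n, D.χ c (c ^ j) = if j + 1 = n then 1 else 0) (k : ℕ) :
    ∃ z : LinearMap.ker (dG (Subgroup.zpowers c) (2 * k)),
      toCh _ (2 * k + 1) z.1 = cyc (⟨c, Subgroup.mem_zpowers c⟩ : Subgroup.zpowers c) n k ∧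
      (∀ x, ∃ a : ℤ, x = a • cls _ (2 * k) z) ∧ ∀ a : ℤ, a • cls _ (2 * k) z = 0 ↔ (n : ℤ) ∣ a := by
  classical
  set C := Subgroup.zpowers c with hC
  set g : C := ⟨c, Subgroup.mem_zpowers c⟩ with hg
  have hfin : IsOfFinOrder c := orderOf_pos_iff.1 (by omega)
  have hFin : Finite C := finite_zpowers.2 hfin
  have hcard : Nat.card C = n := by rw [Nat.card_zpowers, ho]
  have : Fintype C := Fintype.ofFinite C
  have hgen : ∀ x : C, x ∈ Subgroup.zpowers g := by
    rintro ⟨x, hx⟩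
    obtain ⟨i, rfl⟩ := Subgroup.mem_zpowers_iff.1 hx
    exact Subgroup.mem_zpowers_iff.2 ⟨i, by ext; simp [hg]⟩
  have hcomm : ∀ x y : C, x * y = y * x := by
    rintro ⟨x, hx⟩ ⟨y, hy⟩
    obtain ⟨i, rfl⟩ := Subgroup.mem_zpowers_iff.1 hx
    obtain ⟨j, rfl⟩ := Subgroup.mem_zpowers_iff.1 hy
    ext
    simp [← zpow_add, add_comm]
  have hcyc : ∃ h : HG C (2 * k + 1),
      (∀ x, ∃ a : ℤ, x = a • h) ∧ ∀ a : ℤ, a • h = 0 ↔ (Fintype.card C : ℤ) ∣ a := by
    let _i : CommGroup C := { (inferInstance : Group C) with mul_comm := hcomm }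
    exact cyclic_H C g hgen k
  obtain ⟨h, hh1, hh2⟩ := hcyc
  have hcn : g ^ n = 1 := by
    ext
    simp [hg, ← ho, pow_orderOf_eq_one]
  obtain ⟨z, hz⟩ := exists_std g n k hcn
  refine ⟨z, hz, ?_⟩
  rw [← Nat.card_eq_fintype_card, hcard] at hh2
  -- the degree
  have hex : ∀ x : C, ∃ i : ℤ, c ^ i = x.1 := fun x => Subgroup.mem_zpowers_iff.1 x.2
  choose e he using hex
  have hmod : ∀ i j : ℤ, c ^ i = c ^ j → ((i : ℤ) : ZMod n) = j := by
    intro i j hij
    rw [zpow_eq_zpow_iff_modEq, ho] at hij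
    exact (ZMod.intCast_eq_intCast_iff _ _ _).2 hij
  have hv' : ∀ j < n, (D.comap C.subtype).χ g (g ^ j) = if j + 1 = n then 1 else 0 := by
    intro j hj
    have := hv j hj
    simpa [Dat.comap, hg] using this
  have hdvd : ∀ m : ℤ, m • cls C (2 * k) z = 0 → (n : ℤ) ∣ m := by
    intro m hm
    rw [← map_zsmul, cls_eq_zero_iff, ← bounds_iff] at hm
    have e1 : ((m • z : LinearMap.ker (dG C (2 * k))) : (Fin (2 * k + 1) → C) →₀ ℤ) = m • z.1 := rfl
    rw [e1, map_smul, hz] at hm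
    refine dvd_of_bounds (D := D.comap C.subtype) hn g hv' (fun x => ((e x : ℤ) : ZMod n)) ?_ ?_ k m hm
    · intro x y
      rw [← Int.cast_add]
      apply hmod
      rw [he, zpow_add, he, he]
      rfl
    · have := hmod (e g) 1 (by rw [he, zpow_one])
      simpa using this
  obtain ⟨s, hs⟩ := hh1 (cls C (2 * k) z)
  have hcop : IsCoprime s (n : ℤ) := by
    rw [Int.isCoprime_iff_gcd_eq_one]
    by_contra hne
    set d := Int.gcd s n with hd
    have hn0 : (n : ℤ) ≠ 0 := by omega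
    have hd0 : d ≠ 0 := by
      intro h0
      rw [hd, Int.gcd_eq_zero_iff] at h0
      exact hn0 h0.2
    obtain ⟨n', hn'⟩ : (d : ℤ) ∣ n := Int.gcd_dvd_right _ _
    obtain ⟨s', hs'⟩ : (d : ℤ) ∣ s := Int.gcd_dvd_left _ _
    have h1 : n' • cls C (2 * k) z = 0 := by
      rw [hs, smul_smul, hh2]
      refine ⟨s', ?_⟩
      rw [hs', hn']; ring
    have h2 := hdvd n' h1
    obtain ⟨t, ht⟩ := h2
    have h3 : n' * ((d : ℤ) * t - 1) = 0 := by
      have : n' = (d : ℤ) * n' * t := by rw [← hn']; exact ht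
      linarith
    have hn'0 : n' ≠ 0 := by
      rintro rfl
      apply hn0; rw [hn']; simp
    have h4 : (d : ℤ) * t = 1 := by
      rcases mul_eq_zero.1 h3 with h | h
      · exact absurd h hn'0
      · linarith
    have h5 : (d : ℤ) ∣ 1 := ⟨t, h4.symm⟩
    have h6 := Int.natAbs_dvd_natAbs.2 h5
    simp at h6
    exact hne h6
  obtain ⟨a, b, hab⟩ := hcop
  have hgen' : h = a • cls C (2 * k) z := by
    rw [hs, smul_smul]
    have h1 : (b * (n : ℤ)) • h = 0 := (hh2 _).2 ⟨b, by ring⟩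
    calc h = (1 : ℤ) • h := (one_smul _ _).symm
      _ = (a * s + b * n) • h := by rw [hab]
      _ = (a * s) • h := by rw [add_zsmul, h1, add_zero]
  refine ⟨?_, ?_⟩
  · intro x
    obtain ⟨t, ht⟩ := hh1 x
    refine ⟨t * a, ?_⟩
    rw [ht, hgen', smul_smul]
  · intro t
    refine ⟨hdvd t, ?_⟩
    rintro ⟨u, rfl⟩
    rw [hs, smul_smul, hh2]
    exact ⟨u * s, by ring⟩

end Pool.Agent.EUL
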