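import Pool.Agent.EUL.Cyc

set_option autoImplicit false

open Finset

namespace Pool.Agent.EUL

variable {M : Type*} [Monoid M]

/-- the homotopy chains: pair (h_{2k}, h_{2k+1}) -/
noncomputable def hEO (c : M) (m l : ℕ) : ℕ → Ch M × Ch M
  | 0 => (0, - ∑ a ∈ Ico 1 m, cn (c ^ a) (cyc c (l * m) 0))
  | k + 1 =>
    let e := - ∑ b ∈ range l, cn ((c ^ m) ^ b) (hEO c m l k).2
    (e, - cn (c ^ m) e - ∑ a ∈ Ico 1 m, cn (c ^ a) (cyc c (l * m) (k + 1)))

noncomputable def hE (c : M) (m l k : ℕ) : Ch M := (hEO c m l k).1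
noncomputable def hO (c : M) (m l k : ℕ) : Ch M := (hEO c m l k).2

lemma hE_zero (c : M) (m l : ℕ) : hE c m l 0 = 0 := rfl

lemma hE_succ (c : M) (m l k : ℕ) :
    hE c m l (k + 1) = - ∑ b ∈ range l, cn ((c ^ m) ^ b) (hO c m l k) := rfl

lemma hO_eq (c : M) (m l k : ℕ) :
    hO c m l k = - cn (c ^ m) (hE c m l k) - ∑ a ∈ Ico 1 m, cn (c ^ a) (cyc c (l * m) k) := by
  cases k with
  | zero => simp [hO, hE, hEO]
  | succ k => rfl

lemma sum_double (l m : ℕ) {N : Type*} [AddCommMonoid N] (f : ℕ → N) :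
    ∑ j ∈ range (l * m), f j = ∑ b ∈ range l, ∑ a ∈ range m, f (m * b + a) := by
  induction l with
  | zero => simp
  | succ l ih =>
    rw [Nat.succ_mul, Finset.sum_range_succ, ← ih, Finset.sum_range_add, mul_comm m l]

variable {c : M} {m l : ℕ}

lemma sum_range_eq_Ico (hm : 0 < m) {N : Type*} [AddCommMonoid N] (f : ℕ → N) :
    ∑ a ∈ range m, f a = f 0 + ∑ a ∈ Ico 1 m, f a := by
  rw [Finset.range_eq_Ico, Finset.sum_eq_sum_Ico_succ_bot hm]

lemma R_cyc_Ico (hm : 0 < m) (hc : c ^ (l * m) = 1) (k : ℕ) :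
    ∑ a ∈ Ico 1 m, R (c ^ a) (cyc c (l * m) k)
      = cn (c ^ m) (evn c (l * m) k) - cyc c (l * m) k := by
  have h1 : ∑ a ∈ Ico 1 m, R (c ^ a) (cyc c (l * m) k)
      = ∑ a ∈ Ico 1 m, (cn (c ^ (a + 1)) (evn c (l * m) k) - cn (c ^ a) (evn c (l * m) k)) := by
    refine Finset.sum_congr rfl ?_
    intro a _
    rw [R_cyc hc, pow_succ]
  rw [h1, Finset.sum_Ico_sub (fun a => cn (c ^ a) (evn c (l * m) k)) hm, pow_one, cyc_eq]

lemma R_h (hm : 0 < m) (hc : c ^ (l * m) = 1) (k : ℕ) :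
    R (c ^ m) (hE c m l k) = cn (c ^ m) (evn (c ^ m) l k) - cn (c ^ m) (evn c (l * m) k)
        + hE c m l k ∧
    ∀ x, R x (hO c m l k) = cn x (cyc (c ^ m) l k)
      - ∑ a ∈ range m, cn (x * c ^ a) (cyc c (l * m) k)
      - cn (x * c ^ m) (hE c m l k) + cn x (hE c m l k) := by
  have hr : (c ^ m) ^ l = 1 := by rw [← pow_mul, mul_comm, hc]
  have A : ∀ k, R (c ^ m) (hE c m l k)
        = cn (c ^ m) (evn (c ^ m) l k) - cn (c ^ m) (evn c (l * m) k) + hE c m l k →
      ∀ x, R x (hO c m l k) = cn x (cyc (c ^ m) l k)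
      - ∑ a ∈ range m, cn (x * c ^ a) (cyc c (l * m) k)
      - cn (x * c ^ m) (hE c m l k) + cn x (hE c m l k) := by
    intro k hk x
    rw [hO_eq, map_sub, map_neg, R_cn, hk, map_sum]
    simp only [R_cn, Finset.sum_sub_distrib]
    rw [← map_sum, R_cyc_Ico hm hc, sum_range_eq_Ico hm, cyc_eq (c ^ m)]
    simp only [map_sub, map_add, pow_zero, mul_one]
    abel
  have B : ∀ k, (∀ x, R x (hO c m l k) = cn x (cyc (c ^ m) l k)
      - ∑ a ∈ range m, cn (x * c ^ a) (cyc c (l * m) k)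
      - cn (x * c ^ m) (hE c m l k) + cn x (hE c m l k)) →
      ∀ x, R x (hE c m l (k + 1)) = cn x (evn (c ^ m) l (k + 1)) - cn x (evn c (l * m) (k + 1))
        - ∑ b ∈ range l, cn (x * (c ^ m) ^ b) (hO c m l k) := by
    intro k hk x
    rw [hE_succ, map_neg, map_sum]
    simp only [R_cn, Finset.sum_sub_distrib]
    rw [← map_sum]
    have h1 : ∑ b ∈ range l, R ((c ^ m) ^ b) (hO c m l k)
        = evn (c ^ m) l (k + 1) - evn c (l * m) (k + 1) := by
      simp only [hk, Finset.sum_sub_distrib, Finset.sum_add_distrib, ← pow_succ]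
      rw [sum_shift hr (fun x => cn x (hE c m l k))]
      have h2 : ∑ b ∈ range l, ∑ a ∈ range m, cn ((c ^ m) ^ b * c ^ a) (cyc c (l * m) k)
          = evn c (l * m) (k + 1) := by
        simp only [evn]
        rw [sum_double]
        simp only [← pow_mul, ← pow_add]
      rw [h2]
      simp only [evn]
      abel
    rw [h1]
    simp only [map_sub]
    abel
  induction k with
  | zero =>
    have h0 : R (c ^ m) (hE c m l 0)
        = cn (c ^ m) (evn (c ^ m) l 0) - cn (c ^ m) (evn c (l * m) 0) + hE c m l 0 := by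
      simp [hE_zero, evn]
    exact ⟨h0, A 0 h0⟩
  | succ k ih =>
    have h1 : R (c ^ m) (hE c m l (k + 1))
        = cn (c ^ m) (evn (c ^ m) l (k + 1)) - cn (c ^ m) (evn c (l * m) (k + 1))
          + hE c m l (k + 1) := by
      rw [B k ih.2 (c ^ m)]
      simp only [← pow_succ' (c ^ m)]
      rw [sum_shift hr (fun x => cn x (hO c m l k)), hE_succ]
      abel
    exact ⟨h1, A _ h1⟩

/-- the cycles of `c ^ m` and of `c` -/
theorem bar_hO (hm : 0 < m) (hc : c ^ (l * m) = 1) (k : ℕ) :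
    bar (hO c m l k) = cyc (c ^ m) l k - (m : ℤ) • cyc c (l * m) k := by
  have h := congrArg dl ((R_h hm hc k).2 1)
  rw [dl_R] at h
  rw [h]
  simp [dl_cn]

/-- capping with the cocycle, and the chain which bounds a multiple of the standard cycle -/
theorem bounds_of_cycle (D : Dat M) {n : ℕ} {c : M} {σ : M → M} (h : Rel D n c σ) (x : Ch M)
    (hx : bar x = 0) (k : ℕ) :
    bar ((cap D)^[k] x) = 0 ∧ ∃ W : Ch M, bar W = - Od D n c σ k ((cap D)^[k + 1] x) := by
  induction k with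
  | zero =>
    refine ⟨by simpa using hx, Ev D n c σ 0 x, ?_⟩
    rw [bar_Ev h]
    simp [prevOd, hx]
  | succ k ih =>
    obtain ⟨h1, W, hW⟩ := ih
    have h2 : bar ((cap D)^[k + 1] x) = 0 := by
      rw [Function.iterate_succ_apply', bar_cap, h1, map_zero]
    refine ⟨h2, (n : ℤ) • W + Ev D n c σ (k + 1) ((cap D)^[k + 1] x), ?_⟩
    rw [map_add, map_smul, hW, bar_Ev h, h2, ← Function.iterate_succ_apply' (cap D) (k + 1) x]
    simp [prevOd]
    abel

end Pool.Agent.EUL
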