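import Pool.Agent.EUL.Bar

set_option autoImplicit false

open Finset

namespace Pool.Agent.EUL

variable {M : Type*} [Monoid M] (D : Dat M) (n : ℕ) (c : M) (σ : M → M)

/-- the relations of the twisted section -/
structure Rel : Prop where
  hn : 0 < n
  hc : c ^ n = 1
  com : ∀ g, c * σ g = σ g * c
  s0 : ∀ g h, D.χ g h = 0 → σ g * σ h = σ (g * h)
  s1 : ∀ g h, D.χ g h = 1 → σ g * σ h = c * σ (g * h)

lemma sum_shift {N : Type*} [AddCommMonoid N] {n : ℕ} {c : M} (hc : c ^ n = 1) (f : M → N) :
    ∑ j ∈ range n, f (c ^ (j + 1)) = ∑ j ∈ range n, f (c ^ j) := by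
  cases n with
  | zero => simp
  | succ n =>
    rw [Finset.sum_range_succ, Finset.sum_range_succ', hc, pow_zero]

/-- `Σ_j x c^j t_{2i-1}(w)` -/
noncomputable def sm (x : M) : ℕ → List M → Ch M
  | 0, _ => 0
  | i + 1, w => ∑ j ∈ range n, cn (x * c ^ j) (od D n c σ i w)

/-- first face -/
noncomputable def hs (x : M) (f : List M → Ch M) : List M → Ch M
  | [] => 0
  | g :: w => cn (x * σ g) (f w)

/-- the term with the cocycle, translated -/
noncomputable def kx (x : M) (i : ℕ) : List M → Ch M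
  | [] => 0
  | [_] => 0
  | g :: h :: w => D.χ g h • cn (x * σ (g * h)) (od D n c σ i w)

/-- the empty word in degree 0 -/
noncomputable def bs : ℕ → List M → Ch M
  | 0, [] => Finsupp.single [] 1
  | _, _ => 0

/-- boundary formula, odd -/
def PO (i : ℕ) (w : List M) : Prop := ∀ x : M,
  R x (od D n c σ i w) = cn (x * c) (ev D n c σ i w) - cn x (ev D n c σ i w)
    - hs σ x (od D n c σ i) w + cn x (Od D n c σ i (rhow w))

/-- boundary formula, even -/
def PE (i : ℕ) (w : List M) : Prop := ∀ x : M,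
  R x (ev D n c σ i w) = bs i w + sm D n c σ x i w + hs σ x (ev D n c σ i) w
    - cn x (Ev D n c σ i (rhow w)) - kx D n c σ x i w

variable {D n c σ}

lemma ev_eq (i : ℕ) (g : M) (w : List M) :
    ev D n c σ i (g :: w) = cn (σ g) (ev D n c σ i w) + sm D n c σ 1 i (g :: w)
      - kap D n c σ i g w := by
  cases i with
  | zero => simp [ev_zero_cons, sm]
  | succ i => simp [ev_succ_cons, sm]

lemma sm_shift (h : Rel D n c σ) (i : ℕ) (w : List M) :
    sm D n c σ c i w = sm D n c σ 1 i w := by
  cases i with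
  | zero => rfl
  | succ i =>
    simp only [sm, one_mul]
    rw [← sum_shift h.hc (fun x => cn x (od D n c σ i w))]
    simp only [pow_succ']

lemma ev_nil (i : ℕ) : ev D n c σ i ([] : List M) = bs i [] + sm D n c σ 1 i [] := by
  cases i with
  | zero => rw [ev]; simp [bs, sm]
  | succ i => rw [ev]; simp [bs, sm]

lemma PO_nil (h : Rel D n c σ) (i : ℕ) (he : PE D n c σ i ([] : List M)) :
    PO D n c σ i ([] : List M) := by
  intro x
  have h1 := he c
  have h2 : R c (ev D n c σ i ([] : List M)) = ev D n c σ i [] := by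
    rw [h1, sm_shift h, ev_nil]; simp [hs, rhow, kx]
  conv_lhs => rw [od]
  rw [R_cn, h2]
  simp [hs, rhow]

lemma PO_one (h : Rel D n c σ) (i : ℕ) (g : M) (he : PE D n c σ i [g])
    (ho : PO D n c σ i ([] : List M)) : PO D n c σ i [g] := by
  intro x
  have h1 := he c
  have h2 := ho (σ g)
  have h3 := ev_eq (D := D) (n := n) (c := c) (σ := σ) i g []
  rw [sm_shift h] at h1
  simp only [hs, rhow, rest, kx, bs, kap, Ev_single, Od_single, map_zero, sub_zero, add_zero,
    zero_add] at h1 h2 h3
  rw [od_cons, map_sub, R_cn, R_cn, h1, h2]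
  simp only [hs, rhow, rest, Od_single]
  rw [h.com g]
  have h4 : od D n c σ i ([] : List M) = cn c (ev D n c σ i []) := by rw [od]
  have h5 : sm D n c σ 1 i [g] = ev D n c σ i [g] - cn (σ g) (ev D n c σ i []) := by
    rw [h3]; abel
  rw [h5, h4]
  simp only [map_sub, map_add]
  abel

lemma bs_cons (i : ℕ) (g : M) (w : List M) : bs i (g :: w) = (0 : Ch M) := by
  cases i <;> rfl

lemma PO_two (h : Rel D n c σ) (i : ℕ) (g k : M) (w : List M)
    (he : PE D n c σ i (g :: k :: w)) (ho : PO D n c σ i (k :: w)) :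
    PO D n c σ i (g :: k :: w) := by
  intro x
  have h1 := he c
  have h2 := ho (σ g)
  have h3 := ev_eq (D := D) (n := n) (c := c) (σ := σ) i g (k :: w)
  rw [sm_shift h] at h1
  simp only [hs, kx, bs_cons, kap, zero_add] at h1 h2 h3
  have h5 : sm D n c σ 1 i (g :: k :: w) = ev D n c σ i (g :: k :: w)
      - cn (σ g) (ev D n c σ i (k :: w)) + D.χ g k • cn (σ (g * k)) (od D n c σ i w) := by
    rw [h3]; abel
  rw [od_cons, map_sub, R_cn, R_cn, h1, h2, h5, rhow_cons_cons]
  simp only [hs]
  rw [h.com g]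
  simp only [map_sub, map_add, Ev_single, Od_single, Od_cn, od_cons]
  rcases D.h01 g k with hχ | hχ
  · rw [h.s0 g k hχ, hχ]
    simp only [map_sub, map_add, zero_smul, map_zero]
    abel
  · rw [h.s1 g k hχ, hχ]
    simp only [map_sub, map_add, one_smul, map_zero]
    abel

lemma com_pow (h : Rel D n c σ) (j : ℕ) (g : M) : c ^ j * σ g = σ g * c ^ j := by
  have : Commute c (σ g) := h.com g
  exact (this.pow_left j)

lemma sumR (h : Rel D n c σ) (i : ℕ) (w : List M) (ho : PO D n c σ i w) :
    ∑ j ∈ range n, R (c ^ j) (od D n c σ i w)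
      = - ∑ j ∈ range n, hs σ (c ^ j) (od D n c σ i) w
        + ∑ j ∈ range n, cn (c ^ j) (Od D n c σ i (rhow w)) := by
  have h1 : ∀ j ∈ range n, R (c ^ j) (od D n c σ i w)
      = (cn (c ^ (j + 1)) (ev D n c σ i w) - cn (c ^ j) (ev D n c σ i w))
        + (- hs σ (c ^ j) (od D n c σ i) w + cn (c ^ j) (Od D n c σ i (rhow w))) := by
    intro j _
    rw [ho (c ^ j), pow_succ]; abel
  rw [Finset.sum_congr rfl h1, Finset.sum_add_distrib, Finset.sum_add_distrib,
    Finset.sum_sub_distrib, sum_shift h.hc (fun x => cn x (ev D n c σ i w)), sub_self, zero_add,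
    Finset.sum_neg_distrib]

lemma R_sm (x : M) (i : ℕ) (w : List M) :
    R x (sm D n c σ 1 (i + 1) w) = sm D n c σ x (i + 1) w
      - cn x (∑ j ∈ range n, R (c ^ j) (od D n c σ i w)) := by
  simp only [sm, map_sum, one_mul, R_cn, Finset.sum_sub_distrib]

lemma PE_nil (h : Rel D n c σ) (i : ℕ) (ho : PO D n c σ i ([] : List M)) :
    PE D n c σ (i + 1) ([] : List M) := by
  intro x
  rw [ev_nil, map_add, R_sm, sumR h i [] ho]
  simp [bs, hs, rhow, kx]

lemma PE_zero_nil : PE D n c σ 0 ([] : List M) := by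
  intro x
  rw [ev_nil]
  simp [bs, hs, rhow, kx, rest, sm]

/-- `Σ_j R(c^j) t_{2i-1}(w)` -/
noncomputable def TT (D : Dat M) (n : ℕ) (c : M) (σ : M → M) : ℕ → List M → Ch M
  | 0, _ => 0
  | i + 1, w => ∑ j ∈ range n, R (c ^ j) (od D n c σ i w)

lemma R_sm' (x : M) (i : ℕ) (w : List M) :
    R x (sm D n c σ 1 i w) = sm D n c σ x i w - cn x (TT D n c σ i w) := by
  cases i with
  | zero => simp [sm, TT]
  | succ i => exact R_sm x i w

/-- the correction `χ R(σ(gk)) t_{2i+1}(w'')` -/
noncomputable def rk (D : Dat M) (n : ℕ) (c : M) (σ : M → M) (i : ℕ) : List M → Ch M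
  | [] => 0
  | [_] => 0
  | g :: k :: w => D.χ g k • R (σ (g * k)) (od D n c σ i w)

lemma PE_of_bracket (i : ℕ) (g : M) (w : List M)
    (hb : R (σ g) (ev D n c σ i w) + TT D n c σ i (g :: w) - rk D n c σ i (g :: w)
      = Ev D n c σ i (rhow (g :: w))) : PE D n c σ i (g :: w) := by
  intro x
  rw [ev_eq, map_sub, map_add, R_cn, R_sm', ← hb, bs_cons]
  cases w with
  | nil =>
    simp only [kap, rk, hs, kx, map_zero, map_add, map_sub]
    abel
  | cons k w =>
    simp only [kap, rk, hs, kx, map_zero, map_add, map_sub, map_smul, R_cn, smul_sub]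
    abel

lemma PE_one_zero (g : M) : PE D n c σ 0 [g] := by
  apply PE_of_bracket
  have h1 := (PE_zero_nil (D := D) (n := n) (c := c) (σ := σ)) (σ g)
  rw [h1]
  simp only [TT, rk, rhow, rest, Ev_single, ev_nil, sm, hs, kx]
  simp

lemma PE_one_succ (h : Rel D n c σ) (i : ℕ) (g : M) (he : PE D n c σ (i + 1) ([] : List M))
    (ho : PO D n c σ i [g]) : PE D n c σ (i + 1) [g] := by
  apply PE_of_bracket
  rw [he (σ g)]
  have h2 := sumR h i [g] ho
  simp only [TT, h2, rk, rhow, rest, Ev_single, Od_single, ev_nil, sm, hs, kx, bs, map_zero,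
    one_mul, com_pow h]
  abel

/-- `Σ_j c^j t_{2i-1}(u)`, linear in `u` -/
noncomputable def Smu (D : Dat M) (n : ℕ) (c : M) (σ : M → M) : ℕ → (Ch M →ₗ[ℤ] Ch M)
  | 0 => 0
  | i + 1 => ∑ j ∈ range n, (cn (c ^ j)).comp (Od D n c σ i)

lemma Smu_single (i : ℕ) (w : List M) :
    Smu D n c σ i (Finsupp.single w 1) = sm D n c σ 1 i w := by
  cases i with
  | zero => simp [Smu, sm]
  | succ i => simp [Smu, sm, LinearMap.sum_apply]

lemma Ev_cn (i : ℕ) (g : M) (u : Ch M) :
    Ev D n c σ i (cn g u) = cn (σ g) (Ev D n c σ i u) + Smu D n c σ i (cn g u)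
      - Kap D n c σ i g u := by
  cases i with
  | zero => simp [Ev_zero_cn, Smu]
  | succ i => simp [Ev_succ_cn, Smu, LinearMap.sum_apply]

lemma TT_eq (h : Rel D n c σ) (i : ℕ) (g : M) (w : List M)
    (ho : ∀ i', i = i' + 1 → PO D n c σ i' (g :: w)) :
    TT D n c σ i (g :: w) = - sm D n c σ (σ g) i w + Smu D n c σ i (rhow (g :: w)) := by
  cases i with
  | zero => simp [TT, sm, Smu]
  | succ i =>
    simp only [TT, sm, Smu, LinearMap.sum_apply, LinearMap.comp_apply]
    rw [sumR h i (g :: w) (ho i rfl)]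
    simp only [hs, com_pow h]

lemma PE_two (h : Rel D n c σ) (i : ℕ) (g k : M) (he : PE D n c σ i [k])
    (ho : ∀ i', i = i' + 1 → PO D n c σ i' [g, k]) (ho' : PO D n c σ i ([] : List M)) :
    PE D n c σ i [g, k] := by
  apply PE_of_bracket
  rw [he (σ g), TT_eq h i g [k] ho, rhow_cons_cons]
  simp only [rk, ho' (σ (g * k)), bs_cons, hs, kx, rhow, rest, cn_single, map_sub, map_zero,
    Ev_single, Smu_single, ev_eq, kap]
  rcases D.h01 g k with hχ | hχ
  · rw [h.s0 g k hχ, hχ]
    simp only [zero_smul]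
    abel
  · rw [h.s1 g k hχ, hχ, ← h.com]
    simp only [one_smul]
    abel

lemma PE_three (h : Rel D n c σ) (i : ℕ) (g k l : M) (w : List M)
    (he : PE D n c σ i (k :: l :: w))
    (ho : ∀ i', i = i' + 1 → PO D n c σ i' (g :: k :: l :: w))
    (ho' : PO D n c σ i (l :: w)) :
    PE D n c σ i (g :: k :: l :: w) := by
  apply PE_of_bracket
  have hco := D.coc g k l
  have e1 := D.h01 g k
  have e2 := D.h01 (g * k) l
  have e3 := D.h01 k l
  have e4 := D.h01 g (k * l)
  have key : ∀ u : Ch M, D.χ g k • cn (σ (g * k) * σ l) u - D.χ k l • cn (σ g * σ (k * l)) u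
      = D.χ g (k * l) • cn (σ (g * (k * l))) u - D.χ (g * k) l • cn (σ (g * (k * l))) u := by
    intro u
    rcases e1 with a1 | a1 <;> rcases e2 with a2 | a2 <;> rcases e3 with a3 | a3 <;>
      rcases e4 with a4 | a4 <;> rw [a1, a2, a3, a4] at hco <;> try omega
    all_goals
      first
      | have b2 := h.s0 _ _ a2
      | have b2 := h.s1 _ _ a2
      first
      | have b4 := h.s0 _ _ a4
      | have b4 := h.s1 _ _ a4
      rw [a1, a2, a3, a4, b2, b4, mul_assoc]
      try simp
  have hk := key (od D n c σ i w)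
  have hk2 : D.χ k l • cn (σ g * σ (k * l)) (od D n c σ i w)
      = D.χ g k • cn (σ (g * k) * σ l) (od D n c σ i w)
        - D.χ g (k * l) • cn (σ (g * (k * l))) (od D n c σ i w)
        + D.χ (g * k) l • cn (σ (g * (k * l))) (od D n c σ i w) := by
    rw [sub_eq_iff_eq_add] at hk
    rw [hk]; abel
  obtain ⟨V, hV⟩ : ∃ V : Ch M, V = Finsupp.single ((k * l) :: w) 1 - cn k (rhow (l :: w)) :=
    ⟨_, rfl⟩
  have r2 : rhow (k :: l :: w) = V := by rw [rhow_cons_cons k l, hV]
  have r1 : rhow (g :: k :: l :: w) = Finsupp.single ((g * k) :: l :: w) 1 - cn g V := by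
    rw [rhow_cons_cons g k, r2]
  have r3 : Kap D n c σ i g V = D.χ g (k * l) • cn (σ (g * (k * l))) (od D n c σ i w)
      - D.χ g k • cn (σ (g * k)) (Od D n c σ i (rhow (l :: w))) := by
    rw [hV, map_sub, Kap_single, Kap_cn]; simp only [kap]
  have r4 := ev_eq (D := D) (n := n) (c := c) (σ := σ) i (g * k) (l :: w)
  rw [he (σ g), TT_eq h i g _ ho, r1, r2]
  simp only [rk, ho' (σ (g * k)), bs_cons, hs, kx, map_sub, Ev_single, Ev_cn, r3, Smu_single,
    r4, hk2]
  simp only [kap]
  rw [mul_assoc g k l]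
  rcases e1 with hχ | hχ
  · rw [h.s0 g k hχ, hχ]
    simp only [zero_smul]
    abel
  · rw [h.s1 g k hχ, hχ, ← h.com (g * k)]
    simp only [one_smul]
    abel

theorem all_PE_PO (h : Rel D n c σ) : ∀ N i (w : List M),
    (2 * i + w.length = N → PE D n c σ i w) ∧ (2 * i + 1 + w.length = N → PO D n c σ i w) := by
  intro N
  induction N using Nat.strong_induction_on with
  | _ N IH =>
    intro i w
    have E : ∀ j (v : List M), 2 * j + v.length < N → PE D n c σ j v :=
      fun j v hj => (IH _ hj j v).1 rfl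
    have O : ∀ j (v : List M), 2 * j + 1 + v.length < N → PO D n c σ j v :=
      fun j v hj => (IH _ hj j v).2 rfl
    constructor
    · intro hN
      match w, i with
      | [], 0 => exact PE_zero_nil
      | [], i + 1 => exact PE_nil h i (O i [] (by simp at hN ⊢; omega))
      | [g], 0 => exact PE_one_zero g
      | [g], i + 1 =>
        exact PE_one_succ h i g (E _ _ (by simp at hN ⊢; omega)) (O _ _ (by simp at hN ⊢; omega))
      | [g, k], i =>
        refine PE_two h i g k (E _ _ (by simp at hN ⊢; omega)) ?_ (O _ _ (by simp at hN ⊢; omega))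
        intro i' hi'
        exact O _ _ (by simp at hN ⊢; omega)
      | g :: k :: l :: w, i =>
        refine PE_three h i g k l w (E _ _ (by simp at hN ⊢; omega)) ?_
          (O _ _ (by simp at hN ⊢; omega))
        intro i' hi'
        exact O _ _ (by simp at hN ⊢; omega)
    · intro hN
      match w with
      | [] => exact PO_nil h i (E _ _ (by simp at hN ⊢; omega))
      | [g] =>
        exact PO_one h i g (E _ _ (by simp at hN ⊢; omega)) (O _ _ (by simp at hN ⊢; omega))
      | g :: k :: w =>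
        exact PO_two h i g k w (E _ _ (by simp at hN ⊢; omega)) (O _ _ (by simp at hN ⊢; omega))

lemma hPE (h : Rel D n c σ) (i : ℕ) (w : List M) : PE D n c σ i w := (all_PE_PO h _ i w).1 rfl

lemma hPO (h : Rel D n c σ) (i : ℕ) (w : List M) : PO D n c σ i w := (all_PE_PO h _ i w).2 rfl

/-- drop the first letter -/
noncomputable def dlw : List M → Ch M
  | [] => 0
  | _ :: w => Finsupp.single w 1

/-- drop the first letter, linear -/
noncomputable def dl : Ch M →ₗ[ℤ] Ch M := Finsupp.linearCombination ℤ dlw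

omit [Monoid M] in
@[simp] lemma dl_single (w : List M) : dl (Finsupp.single w 1) = dlw w := by simp [dl]

omit [Monoid M] in
lemma dl_cn (x : M) (u : Ch M) : dl (cn x u) = u := by
  have := ext_words (f := dl.comp (cn x)) (g := LinearMap.id) ?_ u
  · simpa using this
  · intro w; simp [dlw]

lemma dl_R (x : M) (u : Ch M) : dl (R x u) = bar u := by
  have := ext_words (f := dl.comp (R x)) (g := bar) ?_ u
  · simpa using this
  · intro w
    cases w with
    | nil => simp [rest, dlw, bdw]
    | cons y w => simp [rest, dlw, bdw, dl_cn]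

/-- bar boundary in terms of the first face and `rhow` -/
lemma bdw_eq (w : List M) : bdw w = dlw w - rhow w := by
  cases w <;> simp [bdw, dlw, rhow]

theorem bar_Od (h : Rel D n c σ) (i : ℕ) (u : Ch M) :
    bar (Od D n c σ i u) = - Od D n c σ i (bar u) := by
  have := ext_words (f := bar.comp (Od D n c σ i)) (g := -(Od D n c σ i).comp bar) ?_ u
  · simpa using this
  · intro w
    have h1 := hPO h i w 1
    have h2 := congrArg dl h1
    rw [dl_R] at h2
    simp only [LinearMap.comp_apply, Od_single, LinearMap.neg_apply, bar_single]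
    rw [h2, bdw_eq]
    cases w with
    | nil => simp [hs, dl_cn, dlw, rhow]
    | cons g w => simp [hs, dl_cn, dlw]; abel

/-- `n t_{2i-1}` -/
noncomputable def prevOd (D : Dat M) (n : ℕ) (c : M) (σ : M → M) : ℕ → (Ch M →ₗ[ℤ] Ch M)
  | 0 => 0
  | i + 1 => (n : ℤ) • Od D n c σ i

theorem bar_Ev (h : Rel D n c σ) (i : ℕ) (u : Ch M) :
    bar (Ev D n c σ i u) = Ev D n c σ i (bar u) + prevOd D n c σ i u
      - Od D n c σ i (cap D u) := by
  have := ext_words (f := bar.comp (Ev D n c σ i))
    (g := (Ev D n c σ i).comp bar + prevOd D n c σ i - (Od D n c σ i).comp (cap D)) ?_ u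
  · simpa using this
  · intro w
    have h1 := hPE h i w 1
    have h2 := congrArg dl h1
    rw [dl_R] at h2
    have h3 : dl (bs i w) = (0 : Ch M) := by
      cases i <;> cases w <;> simp [bs, dlw]
    have h4 : dl (sm D n c σ 1 i w) = prevOd D n c σ i (Finsupp.single w 1) := by
      cases i with
      | zero => simp [sm, prevOd]
      | succ i => simp [sm, prevOd, dl_cn]
    simp only [LinearMap.comp_apply, Ev_single, LinearMap.sub_apply, LinearMap.add_apply,
      bar_single, cap_single]
    rw [h2, bdw_eq]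
    simp only [map_sub, map_add, h3, h4, dl_cn]
    match w with
    | [] => simp [hs, dlw, rhow, kx, capw]
    | [g] => simp [hs, dlw, kx, capw, dl_cn]; abel
    | g :: k :: w =>
      simp only [hs, dlw, kx, capw, map_smul, dl_cn, Ev_single, Od_single, zero_add]; abel

end Pool.Agent.EUL
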