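import Pool.Agent.EUL.Thm

set_option autoImplicit false

open Finset CategoryTheory

namespace Pool.Agent.EUL

/-- A compatible family of elements `s n` with `m • s (l m) = s l` and `a • s n = 0 ↔ n ∣ a` gives
an embedding of `ℚ/ℤ`. -/
theorem exists_QZ {H : Type} [AddCommGroup H] (s : ℕ → H)
    (h1 : ∀ l m : ℕ, 1 ≤ l → 1 ≤ m → (m : ℤ) • s (l * m) = s l)
    (h2 : ∀ n : ℕ, 1 ≤ n → ∀ a : ℤ, a • s n = 0 ↔ (n : ℤ) ∣ a) :
    ∃ f : ℚ →+ H, ∀ q, f q = 0 ↔ ∃ m : ℤ, q = m := by
  have key : ∀ (q : ℚ) (a : ℤ) (n : ℕ), 1 ≤ n → q = a / n → q.num • s q.den = a • s n := by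
    intro q a n hn hq
    have hd : 1 ≤ q.den := q.pos
    have hden : (q.den : ℚ) ≠ 0 := by exact_mod_cast q.den_ne_zero
    have hn0 : (n : ℚ) ≠ 0 := by exact_mod_cast (by omega : n ≠ 0)
    -- both are equal to something over the common denominator
    have e1 : q.num • s q.den = (q.num * n) • s (q.den * n) := by
      rw [← h1 q.den n hd hn, smul_smul]
    have e2 : a • s n = (a * q.den) • s (q.den * n) := by
      rw [← h1 n q.den hn hd, smul_smul, mul_comm n q.den]
    have e3 : q.num * n = a * q.den := by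
      have : (q.num : ℚ) / q.den = a / n := by rw [Rat.num_div_den, hq]
      rw [div_eq_div_iff hden hn0] at this
      exact_mod_cast this
    rw [e1, e2, e3]
  refine ⟨⟨⟨fun q => q.num • s q.den, ?_⟩, ?_⟩, ?_⟩
  · simp
  · intro p q
    have hd : 1 ≤ p.den * q.den := Nat.mul_pos p.pos q.pos
    have hp0 : (p.den : ℚ) ≠ 0 := by exact_mod_cast p.den_ne_zero
    have hq0 : (q.den : ℚ) ≠ 0 := by exact_mod_cast q.den_ne_zero
    have ep : p = ((p.num * q.den : ℤ) : ℚ) / ((p.den * q.den : ℕ) : ℚ) := by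
      push_cast
      rw [mul_div_mul_right _ _ hq0, Rat.num_div_den]
    have eq : q = ((q.num * p.den : ℤ) : ℚ) / ((p.den * q.den : ℕ) : ℚ) := by
      push_cast
      rw [mul_comm (p.den : ℚ), mul_div_mul_right _ _ hp0, Rat.num_div_den]
    have epq : p + q = ((p.num * q.den + q.num * p.den : ℤ) : ℚ) / ((p.den * q.den : ℕ) : ℚ) := by
      have e4 : p + q = ((p.num * q.den : ℤ) : ℚ) / ((p.den * q.den : ℕ) : ℚ)
          + ((q.num * p.den : ℤ) : ℚ) / ((p.den * q.den : ℕ) : ℚ) := by
        rw [← ep, ← eq]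
      rw [e4, ← add_div]
      push_cast
      rfl
    show (p + q).num • s (p + q).den = p.num • s p.den + q.num • s q.den
    rw [key _ _ _ hd ep, key _ _ _ hd eq, key _ _ _ hd epq, add_smul]
  · intro q
    show q.num • s q.den = 0 ↔ _
    rw [h2 _ q.pos]
    constructor
    · intro h
      have h3 : q.den = 1 := by
        have h4 : q.den ∣ q.num.natAbs := by
          have := Int.natAbs_dvd_natAbs.2 h
          simpa using this
        have h5 := Nat.dvd_gcd h4 dvd_rfl
        rw [q.reduced.gcd_eq_one] at h5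
        exact Nat.dvd_one.1 h5
      refine ⟨q.num, ?_⟩
      conv_lhs => rw [← Rat.num_div_den q, h3]
      simp
    · rintro ⟨m, rfl⟩
      simp

end Pool.Agent.EUL
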