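import Pool.Agent.EUL.Pi

set_option autoImplicit false

open CategoryTheory

namespace Pool.Agent.EUL

lemma mapG_comp {G H K : Type} [Group G] [Group H] [Group K] (f : G →* H) (g : H →* K) (n : ℕ) :
    mapG (g.comp f) n = mapG f n ≫ mapG g n := by
  have h := groupHomology.map_comp (A := Rep.trivial ℤ G ℤ) (B := Rep.trivial ℤ H ℤ)
    (C := Rep.trivial ℤ K ℤ) f g (𝟙 _) (𝟙 _) n
  rw [← h]
  exact groupHomology.map_congr rfl rfl n

lemma mapG_id (G : Type) [Group G] (n : ℕ) : mapG (MonoidHom.id G) n = 𝟙 _ :=
  groupHomology.map_id n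

lemma mapG_comp_apply {G H K : Type} [Group G] [Group H] [Group K] (f : G →* H) (g : H →* K)
    (n : ℕ) (x : HG G n) : mapG (g.comp f) n x = mapG g n (mapG f n x) := by
  rw [mapG_comp]; rfl

lemma mapG_bij {G H : Type} [Group G] [Group H] (e : G ≃* H) (n : ℕ) :
    Function.Bijective (mapG e.toMonoidHom n) := by
  have h1 : ∀ x, mapG e.symm.toMonoidHom n (mapG e.toMonoidHom n x) = x := by
    intro x
    rw [← mapG_comp_apply]
    have : e.symm.toMonoidHom.comp e.toMonoidHom = MonoidHom.id G := by ext; simp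
    rw [this, mapG_id]; rfl
  have h2 : ∀ x, mapG e.toMonoidHom n (mapG e.symm.toMonoidHom n x) = x := by
    intro x
    rw [← mapG_comp_apply]
    have : e.toMonoidHom.comp e.symm.toMonoidHom = MonoidHom.id H := by ext; simp
    rw [this, mapG_id]; rfl
  exact ⟨Function.LeftInverse.injective h1, Function.RightInverse.surjective h2⟩

/-- conjugate subgroups have the same behaviour -/
theorem conj_transport {G : Type} [Group G] (K L : Subgroup G) (h : G)
    (hL : K.map (MulAut.conj h).toMonoidHom = L) (n : ℕ) :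
    (mapG K.subtype n = 0 ↔ mapG L.subtype n = 0) ∧
    (Function.Injective (mapG K.subtype n) ↔ Function.Injective (mapG L.subtype n)) ∧
    Nat.card (HG K n) = Nat.card (HG L n) ∧ Nat.card K = Nat.card L := by
  subst hL
  set φ : G ≃* G := MulAut.conj h with hφ
  let e : K ≃* K.map φ.toMonoidHom := φ.subgroupMap K
  have hsq : (K.map φ.toMonoidHom).subtype.comp e.toMonoidHom = φ.toMonoidHom.comp K.subtype := by
    ext x
    rfl
  have he := mapG_bij e n
  have hp := mapG_bij φ n
  have hc : ∀ x, mapG (K.map φ.toMonoidHom).subtype n (mapG e.toMonoidHom n x)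
      = mapG φ.toMonoidHom n (mapG K.subtype n x) := by
    intro x
    rw [← mapG_comp_apply, ← mapG_comp_apply, hsq]
  refine ⟨?_, ?_, ?_, ?_⟩
  · constructor
    · intro h0
      ext y
      obtain ⟨x, rfl⟩ := he.2 y
      have := hc x
      rw [h0] at this
      change (mapG (K.map φ.toMonoidHom).subtype n) ((mapG e.toMonoidHom n) x) = 0
      rw [this]
      exact map_zero (mapG φ.toMonoidHom n).hom
    · intro h0
      ext x
      change mapG K.subtype n x = 0
      apply hp.1
      rw [← hc, h0]
      exact (map_zero (mapG φ.toMonoidHom n).hom).symm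
  · constructor
    · intro hi y1 y2 hy
      obtain ⟨x1, rfl⟩ := he.2 y1
      obtain ⟨x2, rfl⟩ := he.2 y2
      rw [hc, hc] at hy
      rw [hi (hp.1 hy)]
    · intro hi x1 x2 hx
      apply he.1
      apply hi
      rw [hc, hc, hx]
  · exact Nat.card_congr (Equiv.ofBijective _ he)
  · exact Nat.card_congr e.toEquiv

end Pool.Agent.EUL
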