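import Pool.Agent.EUL.Fin
import Pool.Agent.EUL.Tr
import Pool.Agent.EUL.Qz
import Pool.Agent.EUL.Avg
import Pool.Agent.EUL.Even

set_option autoImplicit false

open Finset CategoryTheory

namespace Pool.Agent.EUL

/-- homology of a finite cyclic subgroup in even positive degrees -/
lemma zpowers_even {G : Type} [Group G] (c : G) (hfin : Finite (Subgroup.zpowers c)) (k : ℕ) :
    ∀ x : HG (Subgroup.zpowers c) (2 * k + 2), x = 0 := by
  classical
  set C := Subgroup.zpowers c with hC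
  set g : C := ⟨c, Subgroup.mem_zpowers c⟩ with hg
  have : Fintype C := Fintype.ofFinite C
  have hgen : ∀ x : C, x ∈ Subgroup.zpowers g := by
    rintro ⟨x, hx⟩
    obtain ⟨i, rfl⟩ := Subgroup.mem_zpowers_iff.1 hx
    exact Subgroup.mem_zpowers_iff.2 ⟨i, by ext; simp [hg]⟩
  have hcomm : ∀ x y : C, x * y = y * x := by
    rintro ⟨x, hx⟩ ⟨y, hy⟩
    obtain ⟨i, rfl⟩ := Subgroup.mem_zpowers_iff.1 hx
    obtain ⟨j, rfl⟩ := Subgroup.mem_zpowers_iff.1 hy
    ext
    simp [← zpow_add, add_comm]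
  let _i : CommGroup C := { (inferInstance : Group C) with mul_comm := hcomm }
  exact fun x => cyclic_H_even C g hgen k x

/-- homology of the trivial group in positive degrees -/
lemma trivial_zero {G : Type} [Group G] (F : Subgroup G) (h1 : Nat.card F = 1) (j : ℕ) (hj : 1 ≤ j)
    (x : HG F j) : x = 0 := by
  classical
  have hF : Finite F := Nat.finite_of_card_ne_zero (by omega)
  have : Fintype F := Fintype.ofFinite F
  have hs : Subsingleton F := (Nat.card_eq_one_iff_unique.1 h1).1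
  have hgen : ∀ x : F, x ∈ Subgroup.zpowers (1 : F) := by
    intro x
    rw [Subsingleton.elim x 1]
    exact Subgroup.mem_zpowers 1
  let _i : CommGroup F := { (inferInstance : Group F) with mul_comm := fun _ _ => Subsingleton.elim _ _ }
  rcases Nat.even_or_odd' j with ⟨i, rfl | rfl⟩
  · obtain ⟨i, rfl⟩ : ∃ i', i = i' + 1 := ⟨i - 1, by omega⟩
    exact cyclic_H_even F 1 hgen i x
  · obtain ⟨h, hh1, hh2⟩ := cyclic_H F 1 hgen i
    obtain ⟨a, rfl⟩ := hh1 x
    rw [hh2, ← Nat.card_eq_fintype_card, h1]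
    simp

lemma map_eq_zero_of {G : Type} [Group G] (F : Subgroup G) (j : ℕ) (h : ∀ x : HG F j, x = 0) :
    mapG F.subtype j = 0 := by
  ext x
  have h1 := h x
  rw [h1]
  exact map_zero (mapG F.subtype j).hom

lemma inj_of {G : Type} [Group G] (F : Subgroup G) (j : ℕ) (h : ∀ x : HG F j, x = 0) :
    Function.Injective (mapG F.subtype j) := by
  intro x y _
  rw [h x, h y]

/-- the power of the class vanishes if a smaller one does -/
lemma RC_succ {M : Type} [Monoid M] (D : Dat M) (k : ℕ) (h : RC D k) : RC D (k + 1) := by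
  obtain ⟨φ, hφ⟩ := h
  refine ⟨fun w => lin φ (capw D w), ?_⟩
  intro u
  have e1 : eul D (k + 1) u = eul D k (cap D u) := by
    rw [eul_apply, eul_apply, Function.iterate_succ_apply]
  have e2 : ∀ v : Ch M, lin (fun w => lin φ (capw D w)) v = lin φ (cap D v) := by
    intro v
    exact ext_words (f := lin (fun w => lin φ (capw D w))) (g := (lin φ).comp (cap D))
      (by intro w; simp) v
  rw [e1, hφ, bar_cap, e2]

lemma EulerPowerZero_succ (k : ℕ) (h : EulerPowerZero (k + 1)) : EulerPowerZero (k + 2) :=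
  frozen_of_RC (k + 1) (RC_succ circ (k + 1) (RC_of_frozen k h))

lemma EulerPowerZero_mono (k l : ℕ) (hkl : k ≤ l) (hk : 1 ≤ k) (h : EulerPowerZero k) :
    EulerPowerZero l := by
  induction l, hkl using Nat.le_induction with
  | base => exact h
  | succ l hl ih =>
    obtain ⟨m, rfl⟩ : ∃ m, l = m + 1 := ⟨l - 1, by omega⟩
    exact EulerPowerZero_succ m ih

/-- every finite subgroup is trivial or conjugate to the group generated by a rotation -/
lemma finite_cases (F : Subgroup DiffAn) (hF : Finite F) :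
    Nat.card F = 1 ∨ ∃ n h, 2 ≤ n ∧ Nat.card F = n ∧
      F.map (MulAut.conj h).toMonoidHom = Subgroup.zpowers (rot n) := by
  have h0 : 0 < Nat.card F := Nat.card_pos
  rcases Nat.lt_or_ge (Nat.card F) 2 with h | h
  · left; omega
  · right
    obtain ⟨g, hg⟩ := conj_rot F _ h rfl
    exact ⟨_, g, h, rfl, hg⟩

lemma rot_finite (n : ℕ) (hn : 2 ≤ n) : Finite (Subgroup.zpowers (rot n)) := by
  apply Nat.finite_of_card_ne_zero
  rw [Nat.card_zpowers, orderOf_rot n hn]
  omega

theorem card_finite (F : Subgroup DiffAn) (hF : Finite F) (k : ℕ) :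
    Nat.card (HG F (2 * k + 1)) = Nat.card F := by
  rcases finite_cases F hF with h | ⟨n, h, hn, hc, hm⟩
  · rw [h, Nat.card_eq_one_iff_unique]
    have h0 := trivial_zero F h (2 * k + 1) (by omega)
    exact ⟨⟨fun x y => by rw [h0 x, h0 y]⟩, ⟨0⟩⟩
  · rw [(conj_transport F _ h hm (2 * k + 1)).2.2.1, (final k).1 n hn, hc]

theorem even_finite (F : Subgroup DiffAn) (hF : Finite F) (k : ℕ) :
    mapG F.subtype (2 * k + 2) = 0 ∧ Function.Injective (mapG F.subtype (2 * k + 2)) := by
  rcases finite_cases F hF with h | ⟨n, h, hn, hc, hm⟩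
  · have h0 := trivial_zero F h (2 * k + 2) (by omega)
    exact ⟨map_eq_zero_of F _ h0, inj_of F _ h0⟩
  · have ht := conj_transport F _ h hm (2 * k + 2)
    have h0 := zpowers_even (rot n) (rot_finite n hn) k
    exact ⟨ht.1.2 (map_eq_zero_of _ _ h0), ht.2.1.2 (inj_of _ _ h0)⟩

/-- the standard classes -/
theorem exists_classes (k : ℕ) :
    ∃ s : ℕ → HG DiffAn (2 * k + 1),
      (∀ l m : ℕ, 1 ≤ l → 1 ≤ m → (m : ℤ) • s (l * m) = s l) ∧
      (s 1 = 0) ∧ ∀ n : ℕ, 2 ≤ n → ∀ a : ℤ, a • s n = 0 ↔ Bounds (a • cyc (rot n) n k) := by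
  have hst : ∀ n : ℕ, ∃ z : LinearMap.ker (dG DiffAn (2 * k)),
      2 ≤ n → toCh DiffAn (2 * k + 1) z.1 = cyc (rot n) n k := by
    intro n
    by_cases hn : 2 ≤ n
    · obtain ⟨z, hz⟩ := exists_std (rot n) n k (rot_pow_self n hn)
      exact ⟨z, fun _ => hz⟩
    · exact ⟨0, fun h => absurd h hn⟩
  choose z hz using hst
  have hb : ∀ y : LinearMap.ker (dG DiffAn (2 * k)),
      cls DiffAn (2 * k) y = 0 ↔ Bounds (toCh DiffAn (2 * k + 1) y.1) := by
    intro y
    rw [cls_eq_zero_iff, bounds_iff]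
  have hn0 : ∀ n : ℕ, 2 ≤ n → (n : ℤ) • cls DiffAn (2 * k) (z n) = 0 := by
    intro n hn
    rw [← map_zsmul, hb]
    change Bounds (toCh DiffAn (2 * k + 1) ((n : ℤ) • (z n).1))
    rw [map_smul, hz n hn]
    exact ⟨_, bar_evn (rot_pow_self n hn) k⟩
  refine ⟨fun n => if 2 ≤ n then cls DiffAn (2 * k) (z n) else 0, ?_, ?_, ?_⟩
  · intro l m hl hm
    by_cases hl2 : 2 ≤ l
    · have hlm : 2 ≤ l * m := le_trans hl2 (Nat.le_mul_of_pos_right l hm)
      simp only [hl2, hlm, if_true]
      rw [← sub_eq_zero, ← map_zsmul, ← map_sub, hb]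
      change Bounds (toCh DiffAn (2 * k + 1) ((m : ℤ) • (z (l * m)).1 - (z l).1))
      rw [map_sub, map_smul, hz l hl2, hz (l * m) hlm]
      have h2 := bar_hO (c := rot (l * m)) (m := m) (l := l) (by omega)
        (rot_pow_self (l * m) hlm) k
      have h3 : rot (l * m) ^ m = rot l := famCirc.pw l m hl2 hm
      rw [h3] at h2
      exact ⟨-hO (rot (l * m)) m l k, by rw [map_neg, h2]; abel⟩
    · have hl1 : l = 1 := by omega
      subst hl1
      simp only [one_mul]
      by_cases hm2 : 2 ≤ m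
      · simp only [hm2, if_true]
        rw [hn0 m hm2]
        simp
      · simp [hm2]
  · simp
  · intro n hn a
    simp only [hn, if_true]
    rw [← map_zsmul, hb]
    change Bounds (toCh DiffAn (2 * k + 1) (a • (z n).1)) ↔ _
    rw [map_smul, hz n hn]

/-- If the power of the Euler class vanishes then `ℚ/ℤ` embeds. -/
theorem QZ_of_zero (k : ℕ) (h : EulerPowerZero (k + 1)) :
    ∃ f : ℚ →+ HG DiffAn (2 * k + 1), ∀ q, f q = 0 ↔ ∃ m : ℤ, q = m := by
  obtain ⟨s, hs1, hs2, hs3⟩ := exists_classes k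
  apply exists_QZ s hs1
  intro n hn a
  by_cases hn2 : 2 ≤ n
  · rw [hs3 n hn2]
    constructor
    · intro hb
      by_contra hna
      have D := map_dich circ (rot n) n hn2 (orderOf_rot n hn2) (val_rot n hn2) k
      have hT := (final k).2
      have h4 : ∃ n, 2 ≤ n ∧ ¬ Function.Injective
          (mapG (Subgroup.zpowers (rot n)).subtype (2 * k + 1)) :=
        ⟨n, hn2, fun hi => hna (D.2.1.1 hi a hb)⟩
      have h5 : ¬ EulerPowerZero (k + 1) := (hT.out 0 3).2 h4
      exact h5 h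
    · rintro ⟨b, rfl⟩
      refine ⟨b • evn (rot n) n (k + 1), ?_⟩
      rw [map_smul, bar_evn (rot_pow_self n hn2), smul_smul, mul_comm]
  · have hn1 : n = 1 := by omega
    subst hn1
    rw [hs2]
    exact ⟨fun _ => by simp, fun _ => zsmul_zero a⟩

/-- the dichotomy for finite subgroups -/
theorem dichotomy (k : ℕ) :
    List.TFAE [
      ¬ EulerPowerZero (k + 1),
      ∃ F : Subgroup DiffAn, Finite F ∧ F ≠ ⊥ ∧ mapG F.subtype (2 * k + 1) = 0,
      ∀ F : Subgroup DiffAn, Finite F → mapG F.subtype (2 * k + 1) = 0,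
      ∃ F : Subgroup DiffAn, Finite F ∧ ¬ Function.Injective (mapG F.subtype (2 * k + 1)),
      ∃ x : (Fin (2 * (k + 1)) → DiffAn) →₀ ℤ, dG DiffAn (2 * k + 1) x = 0 ∧
        eulerValue (k + 1) x = 1] := by
  have hT := (final k).2
  tfae_have 1 ↔ 5 := hT.out 0 4
  tfae_have 1 → 3 := by
    intro h F hF
    rcases finite_cases F hF with h1 | ⟨n, g, hn, hc, hm⟩
    · exact map_eq_zero_of F _ (trivial_zero F h1 (2 * k + 1) (by omega))
    · have h3 : ∀ n, 2 ≤ n → mapG (Subgroup.zpowers (rot n)).subtype (2 * k + 1) = 0 :=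
        (hT.out 0 2).1 h
      exact (conj_transport F _ g hm (2 * k + 1)).1.2 (h3 n hn)
  tfae_have 3 → 2 := by
    intro h
    refine ⟨Subgroup.zpowers (rot 2), rot_finite 2 le_rfl, ?_, h _ (rot_finite 2 le_rfl)⟩
    intro hbot
    have h1 : Nat.card (Subgroup.zpowers (rot 2)) = 2 := by
      rw [Nat.card_zpowers, orderOf_rot 2 le_rfl]
    rw [hbot] at h1
    simp at h1
  tfae_have 2 → 4 := by
    rintro ⟨F, hF, hne, h0⟩
    refine ⟨F, hF, ?_⟩
    intro hi
    have hc := card_finite F hF k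
    have h1 : Nat.card (HG F (2 * k + 1)) = 1 := by
      rw [Nat.card_eq_one_iff_unique]
      refine ⟨⟨fun x y => hi ?_⟩, ⟨0⟩⟩
      rw [h0]; rfl
    rw [h1] at hc
    exact hne (Subgroup.eq_bot_of_card_eq F hc.symm)
  tfae_have 4 → 1 := by
    rintro ⟨F, hF, hi⟩
    rcases finite_cases F hF with h1 | ⟨n, g, hn, hc, hm⟩
    · exact absurd (inj_of F _ (trivial_zero F h1 (2 * k + 1) (by omega))) hi
    · have h4 : ∃ n, 2 ≤ n ∧ ¬ Function.Injective
          (mapG (Subgroup.zpowers (rot n)).subtype (2 * k + 1)) :=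
        ⟨n, hn, by rwa [← (conj_transport F _ g hm (2 * k + 1)).2.1]⟩
      exact (hT.out 0 3).2 h4
  tfae_finish

/-- the zero-one law -/
theorem zero_one :
    ((∀ k, 2 ≤ k → ¬ EulerPowerZero k) ↔
      ∀ F : Subgroup DiffAn, Finite F → ∀ j, 2 ≤ j → mapG F.subtype j = 0) ∧
    ((¬ ∀ k, 2 ≤ k → ¬ EulerPowerZero k) ↔
      ∃ N, ∀ F : Subgroup DiffAn, Finite F → ∀ j, N ≤ j → Function.Injective (mapG F.subtype j)) := by
  constructor
  · constructor
    · intro h F hF j hj
      rcases Nat.even_or_odd' j with ⟨i, rfl | rfl⟩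
      · obtain ⟨i, rfl⟩ : ∃ i', i = i' + 1 := ⟨i - 1, by omega⟩
        exact (even_finite F hF i).1
      · have h3 : ∀ F : Subgroup DiffAn, Finite F → mapG F.subtype (2 * i + 1) = 0 :=
          ((dichotomy i).out 0 2).1 (h (i + 1) (by omega))
        exact h3 F hF
    · intro h k hk
      obtain ⟨i, rfl⟩ : ∃ i, k = i + 1 := ⟨k - 1, by omega⟩
      exact ((dichotomy i).out 0 2).2 (fun F hF => h F hF (2 * i + 1) (by omega))
  · constructor
    · intro h
      push Not at h
      obtain ⟨k, hk, h0⟩ := h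
      refine ⟨2 * k, ?_⟩
      intro F hF j hj
      rcases Nat.even_or_odd' j with ⟨i, rfl | rfl⟩
      · obtain ⟨i, rfl⟩ : ∃ i', i = i' + 1 := ⟨i - 1, by omega⟩
        exact (even_finite F hF i).2
      · by_contra hi
        have h4 : ∃ F : Subgroup DiffAn, Finite F ∧
            ¬ Function.Injective (mapG F.subtype (2 * i + 1)) := ⟨F, hF, hi⟩
        have h5 : ¬ EulerPowerZero (i + 1) := ((dichotomy i).out 0 3).2 h4
        exact h5 (EulerPowerZero_mono k (i + 1) (by omega) (by omega) h0)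
    · rintro ⟨N, hN⟩ h
      have h1 := ((dichotomy (N + 1)).out 0 1).1 (h (N + 1 + 1) (by omega))
      obtain ⟨F, hF, hne, h0⟩ := h1
      have hi := hN F hF (2 * (N + 1) + 1) (by omega)
      have hc := card_finite F hF (N + 1)
      have h1 : Nat.card (HG F (2 * (N + 1) + 1)) = 1 := by
        rw [Nat.card_eq_one_iff_unique]
        refine ⟨⟨fun x y => hi ?_⟩, ⟨0⟩⟩
        rw [h0]; rfl
      rw [h1] at hc
      exact hne (Subgroup.eq_bot_of_card_eq F hc.symm)

end Pool.Agent.EUL
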