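import Pool.Agent.EUL.Hg
import Pool.Agent.EUL.Frz

set_option autoImplicit false

open Finset CategoryTheory

namespace Pool.Agent.EUL

variable {G : Type} [Group G]

/-- the class in the big group of the standard cycle -/
lemma map_std (D : Dat G) (c : G) (n : ℕ) (hcn : c ^ n = 1) (k : ℕ)
    (z : LinearMap.ker (dG (Subgroup.zpowers c) (2 * k)))
    (hz : toCh _ (2 * k + 1) z.1 = cyc (⟨c, Subgroup.mem_zpowers c⟩ : Subgroup.zpowers c) n k)
    (a : ℤ) :
    mapG (Subgroup.zpowers c).subtype (2 * k + 1) (a • cls _ (2 * k) z) = 0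
      ↔ Bounds (a • cyc c n k) := by
  obtain ⟨y, hy⟩ := exists_std c n k hcn
  have h1 : mapG (Subgroup.zpowers c).subtype (2 * k + 1) (cls _ (2 * k) z) = cls G (2 * k) y := by
    apply map_cls
    apply toCh_inj (M := G) (2 * k + 1)
    rw [hy, toCh_map, hz, map_cyc]
    rfl
  have h2 : mapG (Subgroup.zpowers c).subtype (2 * k + 1) (a • cls _ (2 * k) z)
      = a • cls G (2 * k) y := by
    rw [← h1]
    exact map_zsmul (mapG (Subgroup.zpowers c).subtype (2 * k + 1)).hom a _
  rw [h2, ← map_zsmul, cls_eq_zero_iff, ← bounds_iff]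
  have e1 : ((a • y : LinearMap.ker (dG G (2 * k))) : (Fin (2 * k + 1) → G) →₀ ℤ) = a • y.1 := rfl
  rw [e1, map_smul, hy]

/-- the homology map of the cyclic subgroup is zero if the standard cycle bounds, and injective if
its class has order `n` -/
theorem map_dich (D : Dat G) (c : G) (n : ℕ) (hn : 2 ≤ n) (ho : orderOf c = n)
    (hv : ∀ j < n, D.χ c (c ^ j) = if j + 1 = n then 1 else 0) (k : ℕ) :
    (mapG (Subgroup.zpowers c).subtype (2 * k + 1) = 0 ↔ Bounds (cyc c n k)) ∧
    (Function.Injective (mapG (Subgroup.zpowers c).subtype (2 * k + 1)) ↔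
      ∀ a : ℤ, Bounds (a • cyc c n k) → (n : ℤ) ∣ a) ∧
    Nat.card (HG (Subgroup.zpowers c) (2 * k + 1)) = n := by
  have hcn : c ^ n = 1 := by rw [← ho, pow_orderOf_eq_one]
  obtain ⟨z, hz, hg, ha⟩ := std_generates D c n hn ho hv k
  have hm := map_std D c n hcn k z hz
  refine ⟨?_, ?_, ?_⟩
  · constructor
    · intro h
      have h1 := (hm 1).1 (by rw [h]; rfl)
      rwa [one_smul] at h1
    · intro h
      ext x
      obtain ⟨a, rfl⟩ := hg x
      have h1 : Bounds (a • cyc c n k) := by
        obtain ⟨W, hW⟩ := h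
        exact ⟨a • W, by rw [map_smul, hW]⟩
      exact (hm a).2 h1
  · constructor
    · intro h a hb
      have h1 := (hm a).2 hb
      rw [← ha]
      apply h
      rw [h1]
      exact (map_zero (mapG (Subgroup.zpowers c).subtype (2 * k + 1)).hom).symm
    · intro h
      have hinj : ∀ x, mapG (Subgroup.zpowers c).subtype (2 * k + 1) x = 0 → x = 0 := by
        intro x hx
        obtain ⟨a, rfl⟩ := hg x
        exact (ha a).2 (h a ((hm a).1 hx))
      exact (injective_iff_map_eq_zero
        (mapG (Subgroup.zpowers c).subtype (2 * k + 1)).hom).2 hinj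
  · have hs : (⊤ : AddSubgroup (HG (Subgroup.zpowers c) (2 * k + 1)))
        = AddSubgroup.zmultiples (cls _ (2 * k) z) := by
      symm
      rw [eq_top_iff]
      intro x _
      obtain ⟨a, rfl⟩ := hg x
      exact AddSubgroup.mem_zmultiples_iff.2 ⟨a, rfl⟩
    have h1 : addOrderOf (cls _ (2 * k) z) = n := by
      apply Nat.dvd_antisymm
      · rw [addOrderOf_dvd_iff_nsmul_eq_zero]
        have := (ha n).2 dvd_rfl
        rwa [natCast_zsmul] at this
      · have h2 := addOrderOf_nsmul_eq_zero (cls _ (2 * k) z)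
        rw [← natCast_zsmul, ha] at h2
        exact_mod_cast h2
    rw [← AddSubgroup.card_top, hs, Nat.card_zmultiples, h1]

end Pool.Agent.EUL
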