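import Pool.Agent.EUL.Main

set_option autoImplicit false

open CategoryTheory

namespace Pool.Agent.EUL

lemma HZero_of_range (F : Type) [Group F] (i : F →* DiffAn) (n : ℕ)
    (h : mapG i.range.subtype n = 0) : HZero i n := by
  unfold HZero
  have : i = i.range.subtype.comp i.rangeRestrict := by ext; rfl
  rw [this, mapG_comp, h, Limits.comp_zero]

lemma HZero_iff (F : Type) [Group F] (i : F →* DiffAn) (hi : Function.Injective i) (n : ℕ) :
    HZero i n ↔ mapG i.range.subtype n = 0 := by
  refine ⟨?_, HZero_of_range F i n⟩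
  intro h
  ext y
  obtain ⟨x, rfl⟩ := (mapG_bij (MonoidHom.ofInjective hi) n).2 y
  change mapG i.range.subtype n (mapG (MonoidHom.ofInjective hi).toMonoidHom n x) = 0
  rw [← mapG_comp_apply]
  have h1 : i.range.subtype.comp (MonoidHom.ofInjective hi).toMonoidHom = i := by ext; rfl
  rw [h1]
  have h2 : mapG i n = 0 := h
  rw [h2]
  rfl

lemma HInj_iff (F : Type) [Group F] (i : F →* DiffAn) (hi : Function.Injective i) (n : ℕ) :
    HInj i n ↔ Function.Injective (mapG i.range.subtype n) := by
  have h1 : i.range.subtype.comp (MonoidHom.ofInjective hi).toMonoidHom = i := by ext; rfl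
  have hb := mapG_bij (MonoidHom.ofInjective hi) n
  have hc : ∀ x, mapG i.range.subtype n (mapG (MonoidHom.ofInjective hi).toMonoidHom n x)
      = mapG i n x := by
    intro x
    rw [← mapG_comp_apply, h1]
  constructor
  · intro h y1 y2 hy
    obtain ⟨x1, rfl⟩ := hb.2 y1
    obtain ⟨x2, rfl⟩ := hb.2 y2
    rw [hc, hc] at hy
    rw [h hy]
  · intro h x1 x2 hx
    apply hb.1
    apply h
    rw [hc, hc, hx]

lemma card_hom (F : Type) [Group F] [Finite F] (i : F →* DiffAn) (hi : Function.Injective i)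
    (k : ℕ) : Nat.card (HG F (2 * k + 1)) = Nat.card F := by
  have e := MonoidHom.ofInjective hi
  have hF : Finite i.range := Finite.of_equiv F e.toEquiv
  rw [Nat.card_congr (Equiv.ofBijective _ (mapG_bij e (2 * k + 1))), card_finite i.range hF k,
    Nat.card_congr e.toEquiv]

/-- the dichotomy, for homomorphisms from finite groups -/
theorem dichotomy_hom (k : ℕ) :
    List.TFAE [
      ¬ EulerPowerZero (k + 1),
      ∃ (F : Type) (_ : Group F) (_ : Finite F) (_ : Nontrivial F) (i : F →* DiffAn),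
        Function.Injective i ∧ HZero i (2 * k + 1),
      ∀ (F : Type) [Group F] [Finite F] (i : F →* DiffAn), HZero i (2 * k + 1),
      ∃ (F : Type) (_ : Group F) (_ : Finite F) (i : F →* DiffAn),
        Function.Injective i ∧ ¬ HInj i (2 * k + 1),
      ∃ x : (Fin (2 * (k + 1)) → DiffAn) →₀ ℤ, dG DiffAn (2 * k + 1) x = 0 ∧
        eulerValue (k + 1) x = 1] := by
  have hT := dichotomy k
  tfae_have 1 ↔ 5 := hT.out 0 4
  tfae_have 1 → 3 := by
    intro h F _ _ i
    have h3 : ∀ F : Subgroup DiffAn, Finite F → mapG F.subtype (2 * k + 1) = 0 := (hT.out 0 2).1 h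
    have hF : Finite i.range := Finite.of_surjective _ i.rangeRestrict_surjective
    exact HZero_of_range F i _ (h3 _ hF)
  tfae_have 3 → 2 := by
    intro h
    have h1 : Nat.card (Subgroup.zpowers (rot 2)) = 2 := by
      rw [Nat.card_zpowers, orderOf_rot 2 le_rfl]
    have hF := rot_finite 2 le_rfl
    have hN : Nontrivial (Subgroup.zpowers (rot 2)) := Finite.one_lt_card_iff_nontrivial.1 (by omega)
    exact ⟨_, _, hF, hN, (Subgroup.zpowers (rot 2)).subtype, Subtype.val_injective, h _ _⟩
  tfae_have 2 → 1 := by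
    rintro ⟨F, _, _, hN, i, hi, h0⟩
    have h2 : ∃ F : Subgroup DiffAn, Finite F ∧ F ≠ ⊥ ∧ mapG F.subtype (2 * k + 1) = 0 := by
      refine ⟨i.range, Finite.of_surjective _ i.rangeRestrict_surjective, ?_,
        (HZero_iff F i hi _).1 h0⟩
      intro hbot
      have e := MonoidHom.ofInjective hi
      have h1 : Nat.card F = Nat.card i.range := Nat.card_congr e.toEquiv
      rw [hbot] at h1
      have h3 := Finite.one_lt_card_iff_nontrivial.2 hN
      simp at h1
      omega
    exact (hT.out 0 1).2 h2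
  tfae_have 1 → 4 := by
    intro h
    have h4 : ∃ F : Subgroup DiffAn, Finite F ∧
        ¬ Function.Injective (mapG F.subtype (2 * k + 1)) := (hT.out 0 3).1 h
    obtain ⟨F, hF, hn⟩ := h4
    exact ⟨F, _, hF, F.subtype, Subtype.val_injective, hn⟩
  tfae_have 4 → 1 := by
    rintro ⟨F, _, _, i, hi, h0⟩
    rw [HInj_iff F i hi] at h0
    have h4 : ∃ F : Subgroup DiffAn, Finite F ∧
        ¬ Function.Injective (mapG F.subtype (2 * k + 1)) :=
      ⟨i.range, Finite.of_surjective _ i.rangeRestrict_surjective, h0⟩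
    exact (hT.out 0 3).2 h4
  tfae_finish

/-- Q1 -/
theorem Q1_iff :
    (∀ k, 2 ≤ k → ¬ EulerPowerZero k) ↔
      ∀ (F : Type) [Group F] [Finite F] (i : F →* DiffAn) (j : ℕ), 2 ≤ j → HZero i j := by
  rw [zero_one.1]
  constructor
  · intro h F _ _ i j hj
    exact HZero_of_range F i j (h i.range (Finite.of_surjective _ i.rangeRestrict_surjective) j hj)
  · intro h F hF j hj
    exact h F F.subtype j hj

/-- the negation of Q1 -/
theorem not_Q1_iff :
    (∃ k, 2 ≤ k ∧ EulerPowerZero k) ↔
      ∃ N, ∀ (F : Type) [Group F] [Finite F] (i : F →* DiffAn), Function.Injective i →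
        ∀ j, N ≤ j → HInj i j := by
  have h0 : (∃ k, 2 ≤ k ∧ EulerPowerZero k) ↔ ¬ ∀ k, 2 ≤ k → ¬ EulerPowerZero k := by
    push Not
    rfl
  rw [h0, zero_one.2]
  constructor
  · rintro ⟨N, hN⟩
    refine ⟨N, ?_⟩
    intro F _ _ i hi j hj
    rw [HInj_iff F i hi]
    exact hN i.range (Finite.of_surjective _ i.rangeRestrict_surjective) j hj
  · rintro ⟨N, hN⟩
    refine ⟨N, ?_⟩
    intro F hF j hj
    exact hN F F.subtype Subtype.val_injective j hj

end Pool.Agent.EUL
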